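import Pool.Agent.Helper90.Fried.Final

/-!
# Halves of Friedberg splittings of an orbit of simple sets do not form an orbit

Not a hand-in: the result is published (R. Miller, Definable incompleteness and Friedberg splittings,
JSL 67 (2002); listed as known on the page MP_537c74_lc). Kept as a library file.
-/

set_option autoImplicit false


namespace Pool.Agent.Helper90.Fried

/-- The negation of the preceding statement: If C is an orbit of simple sets under automorphisms of the lattice of c.e. sets, then the class of sets that are one half of a Friedberg splitting of some member of C is also such an orbit. -/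
theorem halves_not_an_orbit :
    ¬ (∀ C : Set (Set ℕ),
      (∀ A ∈ C, REPred (fun n : ℕ => n ∈ A) ∧ (Aᶜ).Infinite ∧
        ∀ W : Set ℕ, REPred (fun n : ℕ => n ∈ W) → W ⊆ Aᶜ → W.Finite) →
      C.Nonempty →
      (∀ Φ : {A : Set ℕ // REPred fun n : ℕ => n ∈ A} ≃o {A : Set ℕ // REPred fun n : ℕ => n ∈ A},
        ∀ x : {A : Set ℕ // REPred fun n : ℕ => n ∈ A}, x.val ∈ C → (Φ x).val ∈ C) →
      (∀ x y : {A : Set ℕ // REPred fun n : ℕ => n ∈ A}, x.val ∈ C → y.val ∈ C →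
        ∃ Φ : {A : Set ℕ // REPred fun n : ℕ => n ∈ A} ≃o {A : Set ℕ // REPred fun n : ℕ => n ∈ A},
          Φ x = y) →
      ∀ D : Set (Set ℕ),
        (∀ A : Set ℕ, A ∈ D ↔ ∃ B ∈ C, ∃ A1 : Set ℕ,
          REPred (fun n : ℕ => n ∈ A) ∧ REPred (fun n : ℕ => n ∈ A1) ∧
          Disjoint A A1 ∧ A ∪ A1 = B ∧
          ∀ W : Set ℕ, REPred (fun n : ℕ => n ∈ W) → ¬ REPred (fun n : ℕ => n ∈ W \ B) →
            (¬ REPred (fun n : ℕ => n ∈ W \ A) ∧ ¬ REPred (fun n : ℕ => n ∈ W \ A1))) →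
        D.Nonempty ∧
        (∀ Φ : {A : Set ℕ // REPred fun n : ℕ => n ∈ A} ≃o {A : Set ℕ // REPred fun n : ℕ => n ∈ A},
          ∀ x : {A : Set ℕ // REPred fun n : ℕ => n ∈ A}, x.val ∈ D → (Φ x).val ∈ D) ∧
        (∀ x y : {A : Set ℕ // REPred fun n : ℕ => n ∈ A}, x.val ∈ D → y.val ∈ D →
          ∃ Φ : {A : Set ℕ // REPred fun n : ℕ => n ∈ A} ≃o {A : Set ℕ // REPred fun n : ℕ => n ∈ A},
            Φ x = y)) := by
  intro hmain
  have hC1 : ∀ A ∈ {S : Set ℕ | ∃ Φ : RE ≃o RE, (Φ rB).1 = S},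
      REPred (fun n : ℕ => n ∈ A) ∧ (Aᶜ).Infinite ∧
        ∀ W : Set ℕ, REPred (fun n : ℕ => n ∈ W) → W ⊆ Aᶜ → W.Finite := by
    rintro A ⟨Φ, rfl⟩
    exact ⟨(Φ rB).2, (simple_iso Φ simple_B).1, (simple_iso Φ simple_B).2⟩
  have hC2 : ({S : Set ℕ | ∃ Φ : RE ≃o RE, (Φ rB).1 = S}).Nonempty :=
    ⟨Bset, OrderIso.refl RE, rfl⟩
  have hC3 : ∀ Φ : RE ≃o RE, ∀ x : RE, x.val ∈ {S : Set ℕ | ∃ Φ : RE ≃o RE, (Φ rB).1 = S} →
      (Φ x).val ∈ {S : Set ℕ | ∃ Φ : RE ≃o RE, (Φ rB).1 = S} := by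
    rintro Φ x ⟨Ψ, hΨ⟩
    have h1 : Ψ rB = x := Subtype.ext hΨ
    exact ⟨Ψ.trans Φ, by rw [← h1]; rfl⟩
  have hC4 : ∀ x y : RE, x.val ∈ {S : Set ℕ | ∃ Φ : RE ≃o RE, (Φ rB).1 = S} →
      y.val ∈ {S : Set ℕ | ∃ Φ : RE ≃o RE, (Φ rB).1 = S} → ∃ Φ : RE ≃o RE, Φ x = y := by
    rintro x y ⟨Ψ, hΨ⟩ ⟨Ψ', hΨ'⟩
    have h1 : Ψ rB = x := Subtype.ext hΨ
    have h2 : Ψ' rB = y := Subtype.ext hΨ'
    refine ⟨Ψ.symm.trans Ψ', ?_⟩
    rw [← h1, ← h2]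
    simp
  obtain ⟨_, _, h3⟩ := hmain _ hC1 hC2 hC3 hC4 _ (fun A => Iff.rfl)
  have hB : Bset ∈ {S : Set ℕ | ∃ Φ : RE ≃o RE, (Φ rB).1 = S} := ⟨OrderIso.refl RE, rfl⟩
  obtain ⟨Φ, hΦ⟩ := h3 rA0 rA1
    ⟨Bset, hB, A1, re_A0, re_A1, Set.disjoint_left.2 disj, Bset_eq.symm,
      fun W _ hn => ⟨split0 hn, split1 hn⟩⟩
    ⟨Bset, hB, A0, re_A1, re_A0, Set.disjoint_right.2 disj, by rw [Set.union_comm]; exact Bset_eq.symm,
      fun W _ hn => ⟨split1 hn, split0 hn⟩⟩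
  have := late_iso Φ late_A0
  rw [hΦ] at this
  exact not_late_A1 this

end Pool.Agent.Helper90.Fried
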