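import Mathlib

set_option autoImplicit false

namespace Pool.Agent.Helper90.Fried

open Nat.Partrec (Code)
open Nat.Partrec.Code

/-- `x` is enumerated in the `e`-th r.e. set within `s` steps. -/
def Uin (e s x : ℕ) : Prop := (evaln s (Denumerable.ofNat Code e) x).isSome = true

instance (e s x : ℕ) : Decidable (Uin e s x) := by unfold Uin; infer_instance

theorem Uin_mono {e s t x : ℕ} (h : s ≤ t) (hs : Uin e s x) : Uin e t x := by
  unfold Uin at *
  obtain ⟨y, hy⟩ := Option.isSome_iff_exists.1 hs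
  have := evaln_mono h (by simpa using hy)
  exact Option.isSome_iff_exists.2 ⟨y, by simpa using this⟩

theorem Uin_bound {e s x : ℕ} (hs : Uin e s x) : x < s := by
  unfold Uin at *
  obtain ⟨y, hy⟩ := Option.isSome_iff_exists.1 hs
  exact evaln_bound (by simpa using hy)

theorem primrec_Uin : PrimrecPred fun p : ℕ × ℕ × ℕ => Uin p.1 p.2.1 p.2.2 := by
  unfold Uin
  have h : Primrec fun p : ℕ × ℕ × ℕ =>
      (evaln p.2.1 (Denumerable.ofNat Code p.1) p.2.2) :=
    primrec_evaln.comp
      (((Primrec.fst.comp Primrec.snd).pair ((Primrec.ofNat Code).comp Primrec.fst)).pair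
        (Primrec.snd.comp Primrec.snd))
  have h2 := Primrec.option_isSome.comp h
  exact Primrec.primrecPred (by simpa using h2)

/-- The `e`-th r.e. set. -/
def U (e : ℕ) : Set ℕ := {x | ∃ s, Uin e s x}

theorem exists_index {p : ℕ → Prop} (hp : REPred p) : ∃ e, ∀ x, x ∈ U e ↔ p x := by
  have h1 : Partrec fun a : ℕ => Part.assert (p a) fun _ => Part.some (0 : ℕ) := by
    have := hp.map (g := fun _ _ => (0 : ℕ)) (Computable.const 0).to₂
    refine this.of_eq fun n => ?_
    apply Part.ext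
    intro a
    simp only [Part.mem_map_iff, Part.mem_assert_iff, Part.mem_some_iff]
    constructor
    · rintro ⟨_, ⟨h, _⟩, rfl⟩; exact ⟨h, rfl⟩
    · rintro ⟨h, rfl⟩; exact ⟨(), ⟨h, trivial⟩, rfl⟩
  obtain ⟨c, hc⟩ := exists_code.1 (Partrec.nat_iff.1 h1)
  refine ⟨Encodable.encode c, fun x => ?_⟩
  have h2 : (eval c x).Dom ↔ p x := by
    rw [hc]
    constructor
    · rintro ⟨h, _⟩; exact h
    · intro h; exact ⟨h, trivial⟩
  rw [← h2]
  constructor
  · rintro ⟨s, hs⟩
    unfold Uin at hs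
    rw [Denumerable.ofNat_encode] at hs
    obtain ⟨y, hy⟩ := Option.isSome_iff_exists.1 hs
    exact Part.dom_iff_mem.2 ⟨y, evaln_sound (by simpa using hy)⟩
  · intro h
    obtain ⟨y, hy⟩ := Part.dom_iff_mem.1 h
    obtain ⟨s, hs⟩ := evaln_complete.1 hy
    refine ⟨s, ?_⟩
    unfold Uin
    rw [Denumerable.ofNat_encode]
    exact Option.isSome_iff_exists.2 ⟨y, by simpa using hs⟩

/-- Projections of computable relations are r.e. -/
theorem re_exists {α : Type} [Primcodable α] {r : α → ℕ → Prop} [∀ a s, Decidable (r a s)]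
    (hr : ComputablePred fun p : α × ℕ => r p.1 p.2) :
    REPred fun x : α => ∃ s, r x s := by
  have h1 : Computable fun p : α × ℕ => decide (r p.1 p.2) := by
    obtain ⟨h, h'⟩ := hr
    convert h'
  have h2 : Partrec fun x : α => Nat.rfind fun n => Part.some (decide (r x n)) :=
    Partrec.rfind h1.partrec
  refine h2.dom_re.of_eq fun x => ?_
  refine Nat.rfind_dom.trans ?_
  constructor
  · rintro ⟨n, hn, _⟩
    simp at hn
    exact ⟨n, hn⟩
  · rintro ⟨n, hn⟩
    exact ⟨n, by simpa using hn, fun _ => trivial⟩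

theorem re_U (e : ℕ) : REPred fun x => x ∈ U e := by
  refine re_exists (r := fun x s => Uin e s x) ?_
  exact (primrec_Uin.comp ((Primrec.const e).pair (Primrec.snd.pair Primrec.fst))).computablePred

theorem re_union {A B : Set ℕ} (hA : REPred fun x => x ∈ A) (hB : REPred fun x => x ∈ B) :
    REPred fun x => x ∈ A ∪ B := by
  obtain ⟨a, ha⟩ := exists_index hA
  obtain ⟨b, hb⟩ := exists_index hB
  have : REPred fun x : ℕ => ∃ s, Uin a s x ∨ Uin b s x := by
    refine re_exists ?_
    exact ((primrec_Uin.comp ((Primrec.const a).pair (Primrec.snd.pair Primrec.fst))).or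
      (primrec_Uin.comp ((Primrec.const b).pair (Primrec.snd.pair Primrec.fst)))).computablePred
  refine this.of_eq fun x => ?_
  rw [Set.mem_union, ← ha, ← hb]
  constructor
  · rintro ⟨s, h | h⟩
    · exact Or.inl ⟨s, h⟩
    · exact Or.inr ⟨s, h⟩
  · rintro (⟨s, h⟩ | ⟨s, h⟩)
    · exact ⟨s, Or.inl h⟩
    · exact ⟨s, Or.inr h⟩

theorem re_finite {F : Set ℕ} (hF : F.Finite) : REPred fun x => x ∈ F := by
  obtain ⟨F, rfl⟩ := hF.exists_finset_coe
  have h : PrimrecPred fun x : ℕ => ∃ a ∈ F.toList, a = x := by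
    have h1 : PrimrecRel fun (L : List ℕ) (b : ℕ) => ∃ a ∈ L, a = b :=
      PrimrecRel.exists_mem_list (R := fun a b : ℕ => a = b) Primrec.eq
    exact h1.comp (Primrec.const _) Primrec.id
  refine h.computablePred.to_re.of_eq fun x => ?_
  simp

theorem re_cofinite {F : Set ℕ} (hF : F.Finite) : REPred fun x => x ∈ Fᶜ := by
  obtain ⟨F, rfl⟩ := hF.exists_finset_coe
  have h : PrimrecPred fun x : ℕ => ¬ ∃ a ∈ F.toList, a = x := by
    have h1 : PrimrecRel fun (L : List ℕ) (b : ℕ) => ∃ a ∈ L, a = b :=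
      PrimrecRel.exists_mem_list (R := fun a b : ℕ => a = b) Primrec.eq
    exact (h1.comp (Primrec.const _) Primrec.id).not
  refine h.computablePred.to_re.of_eq fun x => ?_
  simp

/-- r.e. sets. -/
abbrev RE := {A : Set ℕ // REPred fun n : ℕ => n ∈ A}

/-- The union of two r.e. sets. -/
def un (A B : RE) : RE := ⟨A.1 ∪ B.1, re_union A.2 B.2⟩

/-- The finite set `F`. -/
def fin (F : Set ℕ) (hF : F.Finite) : RE := ⟨F, re_finite hF⟩

/-- The set of all natural numbers. -/
def top : RE := ⟨Set.univ, (re_cofinite Set.finite_empty).of_eq fun x => by simp⟩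

end Pool.Agent.Helper90.Fried
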