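import Pool.Agent.Helper90.Fried.Base

set_option autoImplicit false

namespace Pool.Agent.Helper90.Fried

/-- Events: kind (0: into `A0`, 1: into `A1`, 2: candidate), number, requirement, rank, time. -/
abbrev Ev := ℕ × ℕ × ℕ × ℕ × ℕ

abbrev kd (e : Ev) : ℕ := e.1
abbrev el (e : Ev) : ℕ := e.2.1
abbrev rq (e : Ev) : ℕ := e.2.2.1
abbrev rk (e : Ev) : ℕ := e.2.2.2.1
abbrev tm (e : Ev) : ℕ := e.2.2.2.2

theorem prim_kd : Primrec kd := Primrec.fst
theorem prim_el : Primrec el := Primrec.fst.comp Primrec.snd
theorem prim_rq : Primrec rq := Primrec.fst.comp (Primrec.snd.comp Primrec.snd)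
theorem prim_rk : Primrec rk :=
  Primrec.fst.comp (Primrec.snd.comp (Primrec.snd.comp Primrec.snd))
theorem prim_tm : Primrec tm :=
  Primrec.snd.comp (Primrec.snd.comp (Primrec.snd.comp Primrec.snd))

/-- `z` has been put into `B`. -/
def inB (L : List Ev) (z : ℕ) : Prop := ∃ e ∈ L, kd e < 2 ∧ el e = z

instance (L : List Ev) (z : ℕ) : Decidable (inB L z) := by unfold inB; infer_instance

/-- No requirement of higher priority than `n` protects `z`, and `z` is not in `B`. -/
def free (L : List Ev) (z n : ℕ) : Prop :=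
  ¬ inB L z ∧ ∀ e ∈ L, kd e = 2 → el e = z → n ≤ rq e

instance (L : List Ev) (z n : ℕ) : Decidable (free L z n) := by unfold free; infer_instance

/-- The number of candidates of `n`. -/
def cnt (L : List Ev) (n : ℕ) : ℕ := (L.filter fun e => decide (kd e = 2 ∧ rq e = n)).length

/-- `z` is a candidate of `n`. -/
def isCand (L : List Ev) (z n : ℕ) : Prop := ∃ e ∈ L, kd e = 2 ∧ el e = z ∧ rq e = n

instance (L : List Ev) (z n : ℕ) : Decidable (isCand L z n) := by unfold isCand; infer_instance

/-- Some element of `A0` is in `U (n / 2)`. -/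
def satN (L : List Ev) (s n : ℕ) : Prop := ∃ e ∈ L, kd e = 0 ∧ Uin (n / 2) s (el e)

instance (L : List Ev) (s n : ℕ) : Decidable (satN L s n) := by unfold satN; infer_instance

/-- Some old element of the complement of `B` in `W` is not in `U i`. -/
def wit (L : List Ev) (s z i : ℕ) : Prop :=
  ∃ e ∈ L, kd e = 2 ∧ rq e % 2 = 0 ∧ tm e < z ∧ ¬ inB L (el e) ∧ ¬ Uin i s (el e)

instance (L : List Ev) (s z i : ℕ) : Decidable (wit L s z i) := by unfold wit; infer_instance

def elig (L : List Ev) (s z n : ℕ) : Prop := ∀ i < n + 1, Uin i s z ∨ wit L s z i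

instance (L : List Ev) (s z n : ℕ) : Decidable (elig L s z n) := by unfold elig; infer_instance

/-- The odd requirement `n` looks satisfied. -/
def satQ (L : List Ev) (n : ℕ) : Prop :=
  (∃ e ∈ L, kd e = 1 ∧ rq e = n) ∨ ∃ e ∈ L, kd e = 2 ∧ rq e = n ∧ ¬ inB L (el e)

instance (L : List Ev) (n : ℕ) : Decidable (satQ L n) := by unfold satQ; infer_instance

def qi (n : ℕ) : ℕ := (n / 2).unpair.1
def qj (n : ℕ) : ℕ := (n / 2).unpair.2.unpair.1
def qk (n : ℕ) : ℕ := (n / 2).unpair.2.unpair.2

/-- The event of stage `s`, when requirement `n` considers `z`. -/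
def act (L : List Ev) (s n z : ℕ) : Option Ev :=
  if n % 2 = 0 then
    if satN L s n then none
    else if isCand L z n then
      if free L z n ∧ elig L s z n then some (0, z, n, 0, s) else none
    else if Uin (n / 2) s z ∧ free L z n ∧ 4 * Nat.pair n (cnt L n) < z then
      some (2, z, n, cnt L n, s)
    else none
  else if satQ L n then none
  else if free L z n ∧ ¬ Uin (qi n) s z ∧ 4 * Nat.pair n (cnt L n) < z then
    if Uin (qk n) s z then some (1, z, n, cnt L n, s)
    else if Uin (qj n) s z then some (2, z, n, cnt L n, s)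
    else none
  else none

def nn (s : ℕ) : ℕ := s.unpair.1
def zz (s : ℕ) : ℕ := s.unpair.2.unpair.1

/-- The state before stage `s`. -/
def St : ℕ → List Ev
  | 0 => []
  | s + 1 => (act (St s) s (nn s) (zz s)).toList ++ St s

/-! ### Computability -/

theorem prim_inB : PrimrecRel inB := by
  have h : PrimrecRel fun (e : Ev) (z : ℕ) => kd e < 2 ∧ el e = z :=
    (Primrec.nat_lt.comp (prim_kd.comp Primrec.fst) (Primrec.const 2)).and
      (Primrec.eq.comp (prim_el.comp Primrec.fst) Primrec.snd)
  exact h.exists_mem_list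

/-- parameters `(L, s, z, n)` -/
abbrev Par := List Ev × ℕ × ℕ × ℕ

abbrev pL (p : Par) : List Ev := p.1
abbrev ps (p : Par) : ℕ := p.2.1
abbrev pz (p : Par) : ℕ := p.2.2.1
abbrev pn (p : Par) : ℕ := p.2.2.2

theorem prim_pL : Primrec pL := Primrec.fst
theorem prim_ps : Primrec ps := Primrec.fst.comp Primrec.snd
theorem prim_pz : Primrec pz := Primrec.fst.comp (Primrec.snd.comp Primrec.snd)
theorem prim_pn : Primrec pn := Primrec.snd.comp (Primrec.snd.comp Primrec.snd)

theorem prim_ex {R : Ev → Par → Prop} (h : PrimrecRel R) :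
    PrimrecPred fun p : Par => ∃ e ∈ pL p, R e p :=
  (h.exists_mem_list).comp prim_pL Primrec.id

theorem prim_all {R : Ev → Par → Prop} (h : PrimrecRel R) :
    PrimrecPred fun p : Par => ∀ e ∈ pL p, R e p :=
  (h.forall_mem_list).comp prim_pL Primrec.id

theorem prim_imp {α : Type} [Primcodable α] {p q : α → Prop} (hp : PrimrecPred p)
    (hq : PrimrecPred q) : PrimrecPred fun a => p a → q a := by
  classical
  refine (hp.not.or hq).of_eq fun a => ?_
  tauto

theorem prim_eqc {α : Type} [Primcodable α] {f g : α → ℕ} (hf : Primrec f) (hg : Primrec g) :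
    PrimrecPred fun a => f a = g a := Primrec.eq.comp hf hg

theorem prim_ltc {α : Type} [Primcodable α] {f g : α → ℕ} (hf : Primrec f) (hg : Primrec g) :
    PrimrecPred fun a => f a < g a := Primrec.nat_lt.comp hf hg

theorem prim_lec {α : Type} [Primcodable α] {f g : α → ℕ} (hf : Primrec f) (hg : Primrec g) :
    PrimrecPred fun a => f a ≤ g a := Primrec.nat_le.comp hf hg

theorem prim_Uc {α : Type} [Primcodable α] {f g h : α → ℕ} (hf : Primrec f) (hg : Primrec g)
    (hh : Primrec h) : PrimrecPred fun a => Uin (f a) (g a) (h a) :=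
  primrec_Uin.comp (hf.pair (hg.pair hh))

theorem prim_free : PrimrecPred fun p : Par => free (pL p) (pz p) (pn p) := by
  refine ((prim_inB.comp prim_pL prim_pz).not).and (prim_all (R := fun e p =>
    kd e = 2 → el e = pz p → pn p ≤ rq e) ?_)
  exact prim_imp (prim_eqc (prim_kd.comp Primrec.fst) (Primrec.const 2))
    (prim_imp (prim_eqc (prim_el.comp Primrec.fst) (prim_pz.comp Primrec.snd))
      (prim_lec (prim_pn.comp Primrec.snd) (prim_rq.comp Primrec.fst)))

theorem prim_cnt : Primrec₂ cnt := by
  have h : PrimrecRel fun (e : Ev) (n : ℕ) => kd e = 2 ∧ rq e = n :=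
    (prim_eqc (prim_kd.comp Primrec.fst) (Primrec.const 2)).and
      (prim_eqc (prim_rq.comp Primrec.fst) Primrec.snd)
  exact Primrec.list_length.comp h.listFilter

theorem prim_isCand : PrimrecPred fun p : Par => isCand (pL p) (pz p) (pn p) :=
  prim_ex (R := fun e p => kd e = 2 ∧ el e = pz p ∧ rq e = pn p)
    ((prim_eqc (prim_kd.comp Primrec.fst) (Primrec.const 2)).and
      ((prim_eqc (prim_el.comp Primrec.fst) (prim_pz.comp Primrec.snd)).and
        (prim_eqc (prim_rq.comp Primrec.fst) (prim_pn.comp Primrec.snd))))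

theorem prim_half {α : Type} [Primcodable α] {f : α → ℕ} (hf : Primrec f) :
    Primrec fun a => f a / 2 := Primrec.nat_div.comp hf (Primrec.const 2)

theorem prim_satN : PrimrecPred fun p : Par => satN (pL p) (ps p) (pn p) :=
  prim_ex (R := fun e p => kd e = 0 ∧ Uin (pn p / 2) (ps p) (el e))
    ((prim_eqc (prim_kd.comp Primrec.fst) (Primrec.const 0)).and
      (prim_Uc (prim_half (prim_pn.comp Primrec.snd)) (prim_ps.comp Primrec.snd)
        (prim_el.comp Primrec.fst)))

theorem prim_wit : PrimrecPred fun p : Par => wit (pL p) (ps p) (pz p) (pn p) :=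
  prim_ex (R := fun e p => kd e = 2 ∧ rq e % 2 = 0 ∧ tm e < pz p ∧ ¬ inB (pL p) (el e) ∧
      ¬ Uin (pn p) (ps p) (el e))
    ((prim_eqc (prim_kd.comp Primrec.fst) (Primrec.const 2)).and
      ((prim_eqc (Primrec.nat_mod.comp (prim_rq.comp Primrec.fst) (Primrec.const 2))
        (Primrec.const 0)).and
      ((prim_ltc (prim_tm.comp Primrec.fst) (prim_pz.comp Primrec.snd)).and
      (((prim_inB.comp (prim_pL.comp Primrec.snd) (prim_el.comp Primrec.fst)).not).and
      (prim_Uc (prim_pn.comp Primrec.snd) (prim_ps.comp Primrec.snd)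
        (prim_el.comp Primrec.fst)).not))))

theorem prim_elig : PrimrecPred fun p : Par => elig (pL p) (ps p) (pz p) (pn p) := by
  have h : PrimrecRel fun (i : ℕ) (p : Par) => Uin i (ps p) (pz p) ∨ wit (pL p) (ps p) (pz p) i :=
    (prim_Uc Primrec.fst (prim_ps.comp Primrec.snd) (prim_pz.comp Primrec.snd)).or
      (prim_wit.comp (f := fun q : ℕ × Par => ((pL q.2, ps q.2, pz q.2, q.1) : Par))
        ((prim_pL.comp Primrec.snd).pair ((prim_ps.comp Primrec.snd).pair
          ((prim_pz.comp Primrec.snd).pair Primrec.fst))))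
  exact (h.forall_mem_list.comp (Primrec.list_range.comp (Primrec.succ.comp prim_pn))
    Primrec.id).of_eq fun p => by simp [elig]

theorem prim_satQ : PrimrecPred fun p : Par => satQ (pL p) (pn p) :=
  (prim_ex (R := fun e p => kd e = 1 ∧ rq e = pn p)
    ((prim_eqc (prim_kd.comp Primrec.fst) (Primrec.const 1)).and
      (prim_eqc (prim_rq.comp Primrec.fst) (prim_pn.comp Primrec.snd)))).or
  (prim_ex (R := fun e p => kd e = 2 ∧ rq e = pn p ∧ ¬ inB (pL p) (el e))
    ((prim_eqc (prim_kd.comp Primrec.fst) (Primrec.const 2)).and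
      ((prim_eqc (prim_rq.comp Primrec.fst) (prim_pn.comp Primrec.snd)).and
      (prim_inB.comp (prim_pL.comp Primrec.snd) (prim_el.comp Primrec.fst)).not)))

theorem prim_qi : Primrec qi := Primrec.fst.comp (Primrec.unpair.comp (prim_half Primrec.id))
theorem prim_qj : Primrec qj := Primrec.fst.comp (Primrec.unpair.comp
  (Primrec.snd.comp (Primrec.unpair.comp (prim_half Primrec.id))))
theorem prim_qk : Primrec qk := Primrec.snd.comp (Primrec.unpair.comp
  (Primrec.snd.comp (Primrec.unpair.comp (prim_half Primrec.id))))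

theorem prim_bd : PrimrecPred fun p : Par => 4 * Nat.pair (pn p) (cnt (pL p) (pn p)) < pz p :=
  prim_ltc (Primrec.nat_mul.comp (Primrec.const 4)
    (Primrec₂.natPair.comp prim_pn (prim_cnt.comp prim_pL prim_pn))) prim_pz

theorem prim_ev {f : Par → ℕ} (k : ℕ) (hf : Primrec f) :
    Primrec fun p : Par => (some (k, pz p, pn p, f p, ps p) : Option Ev) :=
  Primrec.option_some.comp ((Primrec.const k).pair (prim_pz.pair (prim_pn.pair
    (hf.pair prim_ps))))

theorem prim_act : Primrec fun p : Par => act (pL p) (ps p) (pn p) (pz p) := by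
  unfold act
  refine Primrec.ite (prim_eqc (Primrec.nat_mod.comp prim_pn (Primrec.const 2))
    (Primrec.const 0)) ?_ ?_
  · refine Primrec.ite prim_satN (Primrec.const none) ?_
    refine Primrec.ite prim_isCand ?_ ?_
    · exact Primrec.ite (prim_free.and prim_elig) (prim_ev 0 (Primrec.const 0))
        (Primrec.const none)
    · refine Primrec.ite ?_ (prim_ev 2 (prim_cnt.comp prim_pL prim_pn)) (Primrec.const none)
      exact (prim_Uc (prim_half prim_pn) prim_ps prim_pz).and (prim_free.and prim_bd)
  · refine Primrec.ite prim_satQ (Primrec.const none) ?_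
    refine Primrec.ite ?_ ?_ (Primrec.const none)
    · exact prim_free.and ((prim_Uc (prim_qi.comp prim_pn) prim_ps prim_pz).not.and prim_bd)
    · refine Primrec.ite (prim_Uc (prim_qk.comp prim_pn) prim_ps prim_pz)
        (prim_ev 1 (prim_cnt.comp prim_pL prim_pn)) ?_
      exact Primrec.ite (prim_Uc (prim_qj.comp prim_pn) prim_ps prim_pz)
        (prim_ev 2 (prim_cnt.comp prim_pL prim_pn)) (Primrec.const none)

theorem prim_St : Primrec St := by
  have h1 : Primrec₂ fun (s : ℕ) (L : List Ev) =>
      (act L s (nn s) (zz s)).toList ++ L := by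
    refine Primrec.list_append.comp (Primrec.optionToList.comp
      (prim_act.comp (g := fun q : ℕ × List Ev => ((q.2, q.1, zz q.1, nn q.1) : Par)) ?_))
      Primrec.snd
    have hz : Primrec zz := Primrec.fst.comp (Primrec.unpair.comp
      (Primrec.snd.comp Primrec.unpair))
    have hn : Primrec nn := Primrec.fst.comp Primrec.unpair
    exact Primrec.snd.pair (Primrec.fst.pair ((hz.comp Primrec.fst).pair (hn.comp Primrec.fst)))
  refine (Primrec.nat_rec₁ (f := fun s L => (act L s (nn s) (zz s)).toList ++ L)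
    ([] : List Ev) h1).of_eq fun s => ?_
  induction s with
  | zero => rfl
  | succ s ih => simp only [St]; rw [← ih]

end Pool.Agent.Helper90.Fried
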