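import Pool.Agent.Helper90.Fried.Verify2

set_option autoImplicit false

namespace Pool.Agent.Helper90.Fried

/-! ### A lattice theoretic property -/

def Dj (A V : RE) : Prop := ∀ Z, Z ≤ A → Z ≤ V → ∀ Y, Z ≤ Y
def Cd (V W : RE) : Prop := ∀ Z, V ≤ Z → W ≤ Z → ∀ Y, Y ≤ Z
def Lb (X B W : RE) : Prop := X ≤ W ∧ B ≤ W ∧ ∀ Z, X ≤ Z → B ≤ Z → W ≤ Z

/-- The property which distinguishes the two halves. -/
def Late (A : RE) : Prop :=
  ∃ B W : RE, A ≤ B ∧ B ≤ W ∧ (∀ V, Dj A V → ¬ Cd V W) ∧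
    ∀ X, Lb X B W → ∃ R R', Dj R R' ∧ Cd R R' ∧ R ≤ A ∧ ∀ Y, X ≤ Y → R ≤ Y → A ≤ Y

theorem dj_iso (Φ : RE ≃o RE) (A V : RE) : Dj (Φ A) (Φ V) ↔ Dj A V := by
  unfold Dj
  constructor
  · intro h Z h1 h2 Y
    have := h (Φ Z) (Φ.le_iff_le.2 h1) (Φ.le_iff_le.2 h2) (Φ Y)
    exact Φ.le_iff_le.1 this
  · intro h Z h1 h2 Y
    obtain ⟨Z, rfl⟩ := Φ.surjective Z
    obtain ⟨Y, rfl⟩ := Φ.surjective Y
    exact Φ.le_iff_le.2 (h Z (Φ.le_iff_le.1 h1) (Φ.le_iff_le.1 h2) Y)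

theorem cd_iso (Φ : RE ≃o RE) (A V : RE) : Cd (Φ A) (Φ V) ↔ Cd A V := by
  unfold Cd
  constructor
  · intro h Z h1 h2 Y
    have := h (Φ Z) (Φ.le_iff_le.2 h1) (Φ.le_iff_le.2 h2) (Φ Y)
    exact Φ.le_iff_le.1 this
  · intro h Z h1 h2 Y
    obtain ⟨Z, rfl⟩ := Φ.surjective Z
    obtain ⟨Y, rfl⟩ := Φ.surjective Y
    exact Φ.le_iff_le.2 (h Z (Φ.le_iff_le.1 h1) (Φ.le_iff_le.1 h2) Y)

theorem lb_iso (Φ : RE ≃o RE) (X B W : RE) : Lb (Φ X) (Φ B) (Φ W) ↔ Lb X B W := by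
  unfold Lb
  constructor
  · rintro ⟨h1, h2, h3⟩
    refine ⟨Φ.le_iff_le.1 h1, Φ.le_iff_le.1 h2, fun Z h4 h5 => ?_⟩
    exact Φ.le_iff_le.1 (h3 (Φ Z) (Φ.le_iff_le.2 h4) (Φ.le_iff_le.2 h5))
  · rintro ⟨h1, h2, h3⟩
    refine ⟨Φ.le_iff_le.2 h1, Φ.le_iff_le.2 h2, fun Z h4 h5 => ?_⟩
    obtain ⟨Z, rfl⟩ := Φ.surjective Z
    exact Φ.le_iff_le.2 (h3 Z (Φ.le_iff_le.1 h4) (Φ.le_iff_le.1 h5))

theorem late_iso (Φ : RE ≃o RE) {A : RE} (h : Late A) : Late (Φ A) := by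
  obtain ⟨B, W, h1, h2, h3, h4⟩ := h
  refine ⟨Φ B, Φ W, Φ.le_iff_le.2 h1, Φ.le_iff_le.2 h2, ?_, ?_⟩
  · intro V hV
    obtain ⟨V, rfl⟩ := Φ.surjective V
    rw [cd_iso]
    exact h3 V ((dj_iso _ _ _).1 hV)
  · intro X hX
    obtain ⟨X, rfl⟩ := Φ.surjective X
    obtain ⟨R, R', h5, h6, h7, h8⟩ := h4 X ((lb_iso _ _ _ _).1 hX)
    refine ⟨Φ R, Φ R', (dj_iso _ _ _).2 h5, (cd_iso _ _ _).2 h6, Φ.le_iff_le.2 h7, ?_⟩
    intro Y h9 h10
    obtain ⟨Y, rfl⟩ := Φ.surjective Y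
    exact Φ.le_iff_le.2 (h8 Y (Φ.le_iff_le.1 h9) (Φ.le_iff_le.1 h10))

theorem dj_iff (A V : RE) : Dj A V ↔ ∀ x, x ∈ A.1 → x ∉ V.1 := by
  constructor
  · intro h x hA hV
    have h1 : fin {x} (Set.finite_singleton x) ≤ fin ∅ Set.finite_empty :=
      h _ (fun y hy => by
        have : y = x := hy
        rw [this]; exact hA) (fun y hy => by
        have : y = x := hy
        rw [this]; exact hV) _
    exact h1 (show x ∈ ({x} : Set ℕ) from rfl)
  · intro h Z h1 h2 Y x hx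
    exact (h x (h1 hx) (h2 hx)).elim

theorem cd_iff (A V : RE) : Cd A V ↔ ∀ x, x ∈ A.1 ∨ x ∈ V.1 := by
  constructor
  · intro h x
    exact h (un A V) (fun y hy => Or.inl hy) (fun y hy => Or.inr hy) top (Set.mem_univ x)
  · intro h Z h1 h2 Y x _
    rcases h x with h | h
    · exact h1 h
    · exact h2 h

theorem re_inter {A B : Set ℕ} (hA : REPred fun x => x ∈ A) (hB : REPred fun x => x ∈ B) :
    REPred fun x => x ∈ A ∩ B := by
  obtain ⟨a, ha⟩ := exists_index hA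
  obtain ⟨b, hb⟩ := exists_index hB
  have : REPred fun x : ℕ => ∃ s, Uin a s x ∧ Uin b s x := by
    refine re_exists ?_
    exact ((primrec_Uin.comp ((Primrec.const a).pair (Primrec.snd.pair Primrec.fst))).and
      (primrec_Uin.comp ((Primrec.const b).pair (Primrec.snd.pair Primrec.fst)))).computablePred
  refine this.of_eq fun x => ?_
  rw [Set.mem_inter_iff, ← ha, ← hb]
  constructor
  · rintro ⟨s, h, h'⟩
    exact ⟨⟨s, h⟩, ⟨s, h'⟩⟩
  · rintro ⟨⟨s, h⟩, ⟨s', h'⟩⟩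
    exact ⟨max s s', Uin_mono (le_max_left _ _) h, Uin_mono (le_max_right _ _) h'⟩

def rA0 : RE := ⟨A0, re_A0⟩
def rA1 : RE := ⟨A1, re_A1⟩
def rB : RE := ⟨Bset, re_B⟩
def rW : RE := ⟨Wset, re_W⟩

theorem A0_sub : A0 ⊆ Bset := by rw [Bset_eq]; exact Set.subset_union_left
theorem A1_sub : A1 ⊆ Bset := by rw [Bset_eq]; exact Set.subset_union_right

theorem late_A0 : Late rA0 := by
  refine ⟨rB, rW, A0_sub, Set.subset_union_left, ?_, ?_⟩
  · intro V hV hC
    rw [dj_iff] at hV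
    rw [cd_iff] at hC
    obtain ⟨e, he⟩ := exists_index V.2
    have hinf : (U e \ Bset).Infinite := by
      refine W_coinf.mono fun x hx => ?_
      have hx' : x ∉ Wset := hx
      refine ⟨(he x).2 ?_, fun hB => hx' (Or.inl hB)⟩
      rcases hC x with h | h
      · exact h
      · exact (hx' h).elim
    obtain ⟨z, hz, hz'⟩ := meetN hinf
    exact hV z hz ((he z).1 hz')
  · rintro X ⟨hX1, hX2, hX3⟩
    obtain ⟨i, hi⟩ := exists_index X.2
    have hg : Good i := by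
      intro z hz hzB
      have h1 : z ∈ (un X rB).1 := hX3 (un X rB) (fun y hy => Or.inl hy) (fun y hy => Or.inr hy)
        (show z ∈ Wset from Or.inr hz)
      rcases h1 with h1 | h1
      · exact (hi z).2 h1
      · exact (hzB h1).elim
    refine ⟨⟨Exc i ∪ Early i, re_union (re_Exc i) (re_finite (Early_fin i))⟩,
      ⟨(Exc i)ᶜ ∩ (Early i)ᶜ, re_inter (co_Exc hg) (re_cofinite (Early_fin i))⟩, ?_, ?_, ?_, ?_⟩
    · rw [dj_iff]
      rintro x (h | h) ⟨h1, h2⟩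
      · exact h1 h
      · exact h2 h
    · rw [cd_iff]
      intro x
      by_cases h : x ∈ Exc i ∪ Early i
      · exact Or.inl h
      · right
        rw [Set.mem_union, not_or] at h
        exact h
    · rintro x (⟨t, e, h, hk, hz, _⟩ | ⟨t, e, h, hk, hz, _⟩)
      · exact ⟨t, e, h, hk, hz⟩
      · exact ⟨t, e, h, hk, hz⟩
    · rintro Y hXY hRY x ⟨t, e, h, hk, hz⟩
      by_cases h1 : rq e < i
      · exact hRY (Or.inr ⟨t, e, h, hk, hz, h1⟩)
      · by_cases h2 : Uin i t x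
        · exact hXY ((hi x).1 ⟨t, h2⟩)
        · exact hRY (Or.inl ⟨t, e, h, hk, hz, not_lt.1 h1, h2⟩)

theorem not_late_A1 : ¬ Late rA1 := by
  rintro ⟨B, W, h1, h2, h3, h4⟩
  obtain ⟨i, hi⟩ := exists_index W.2
  have hsub : ∀ x, x ∈ A1 → x ∈ U i := fun x hx => (hi x).2 (h2 (h1 hx))
  have hinf : ((U i ∪ Bset)ᶜ).Infinite := by
    intro hfin
    refine h3 (un rA0 (fin _ hfin)) ?_ ?_
    · rw [dj_iff]
      rintro x hx (hx' | hx')
      · exact disj x hx' hx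
      · exact hx' (Or.inr (A1_sub hx))
    · rw [cd_iff]
      intro x
      by_cases hx : x ∈ U i
      · exact Or.inr ((hi x).1 hx)
      · left
        by_cases hB : x ∈ Bset
        · left
          rw [Bset_eq] at hB
          rcases hB with hB | hB
          · exact hB
          · exact (hx (hsub x hB)).elim
        · right
          rintro (h | h)
          · exact hx h
          · exact hB h
  have hXre : REPred fun x : ℕ => ∃ s, Uin i s x ∧ ¬ ∃ e ∈ St s, kd e = 1 ∧ el e = x := by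
    refine re_exists (r := fun x s => Uin i s x ∧ ¬ ∃ e ∈ St s, kd e = 1 ∧ el e = x) ?_
    exact ((prim_Uc (Primrec.const i) Primrec.snd Primrec.fst).and
      (prim_memSt (R := fun e z => kd e = 1 ∧ el e = z)
        ((prim_eqc (prim_kd.comp Primrec.fst) (Primrec.const 1)).and
          (prim_eqc (prim_el.comp Primrec.fst) Primrec.snd))).not).computablePred
  obtain ⟨R, R', h5, h6, h7, h8⟩ := h4 ⟨{x | ∃ s, Uin i s x ∧ ¬ ∃ e ∈ St s, kd e = 1 ∧ el e = x},
    hXre⟩ (by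
      refine ⟨?_, h2, ?_⟩
      · rintro x ⟨s, hs, _⟩
        exact (hi x).1 ⟨s, hs⟩
      · intro Z hXZ hBZ x hx
        by_cases hA : x ∈ A1
        · exact hBZ (h1 hA)
        · obtain ⟨s, hs⟩ := (hi x).2 hx
          refine hXZ ⟨s, hs, ?_⟩
          rintro ⟨e, he, hk, hz⟩
          obtain ⟨t, _, h⟩ := mem_St.1 he
          exact hA ⟨t, e, h, hk, hz⟩)
  rw [dj_iff] at h5
  rw [cd_iff] at h6
  obtain ⟨j, hj⟩ := exists_index R.2
  obtain ⟨k, hk⟩ := exists_index R'.2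
  have hinf2 : ((U j ∪ U k) \ (U i ∪ Bset)).Infinite := by
    refine hinf.mono fun x hx => ⟨?_, hx⟩
    rcases h6 x with h | h
    · exact Or.inl ((hj x).2 h)
    · exact Or.inr ((hk x).2 h)
  rcases meetQ hinf2 with ⟨z, hz, hzB⟩ | ⟨z, hz, t, e, h, hkd, hel, hU⟩
  · exact hzB (A1_sub (h7 ((hj z).1 hz)))
  · have hzA : z ∈ rA1.1 := ⟨t, e, h, hkd, hel⟩
    have := h8 (un _ R) (fun y hy => Or.inl hy) (fun y hy => Or.inr hy) hzA
    rcases this with ⟨s, hs, hno⟩ | hR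
    · by_cases hts : t < s
      · exact hno ⟨e, mem_St.2 ⟨t, hts, h⟩, hkd, hel⟩
      · exact hU (Uin_mono (not_lt.1 hts) hs)
    · exact h5 z hR ((hk z).1 hz)

/-! ### Simplicity is invariant -/

def Simple (A : RE) : Prop :=
  (A.1ᶜ).Infinite ∧ ∀ W : Set ℕ, REPred (fun n : ℕ => n ∈ W) → W ⊆ A.1ᶜ → W.Finite

theorem fin_iff (A : RE) : A.1.Finite ↔ (Set.Iic A).Finite := by
  constructor
  · intro h
    refine Set.Finite.of_finite_image (f := fun V : RE => V.1) (h.finite_subsets.subset ?_) ?_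
    · rintro _ ⟨V, hV, rfl⟩
      exact hV
    · intro V _ V' _ h
      exact Subtype.ext h
  · intro h
    refine Set.Finite.of_finite_image
      (f := fun x : ℕ => (fin {x} (Set.finite_singleton x) : RE)) (h.subset ?_) ?_
    · rintro _ ⟨x, hx, rfl⟩ y hy
      have : y = x := hy
      rw [this]; exact hx
    · intro x _ y _ h
      have h1 : ({x} : Set ℕ) = {y} := congrArg Subtype.val h
      exact Set.singleton_injective h1

theorem cofin_iff (A : RE) : (A.1ᶜ).Finite ↔ (Set.Ici A).Finite := by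
  constructor
  · intro h
    refine Set.Finite.of_finite_image (f := fun V : RE => V.1 ∩ A.1ᶜ)
      (h.finite_subsets.subset ?_) ?_
    · rintro _ ⟨V, hV, rfl⟩
      exact Set.inter_subset_right
    · intro V hV V' hV' h
      apply Subtype.ext
      ext x
      by_cases hx : x ∈ A.1
      · exact ⟨fun _ => hV' hx, fun _ => hV hx⟩
      · have h1 : V.1 ∩ A.1ᶜ = V'.1 ∩ A.1ᶜ := h
        have h0 : x ∈ V.1 ∩ A.1ᶜ ↔ x ∈ V'.1 ∩ A.1ᶜ := by rw [h1]
        constructor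
        · intro h2
          exact (h0.1 ⟨h2, hx⟩).1
        · intro h2
          exact (h0.2 ⟨h2, hx⟩).1
  · intro h
    refine Set.Finite.of_finite_image
      (f := fun x : ℕ => (un A (fin {x} (Set.finite_singleton x)) : RE)) (h.subset ?_) ?_
    · rintro _ ⟨x, hx, rfl⟩ y hy
      exact Or.inl hy
    · intro x hx y hy h
      have h1 : A.1 ∪ {x} = A.1 ∪ {y} := congrArg Subtype.val h
      have h2 : x ∈ A.1 ∪ {y} := h1 ▸ Or.inr rfl
      rcases h2 with h2 | h2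
      · exact (hx h2).elim
      · exact h2

theorem simple_iso (Φ : RE ≃o RE) {A : RE} (h : Simple A) : Simple (Φ A) := by
  constructor
  · intro hfin
    rw [cofin_iff, ← Φ.image_Ici, Set.finite_image_iff Φ.injective.injOn, ← cofin_iff] at hfin
    exact h.1 hfin
  · intro W hW hWA
    obtain ⟨V, hV⟩ := Φ.surjective ⟨W, hW⟩
    have h1 : Dj (Φ A) (Φ V) := by
      rw [hV, dj_iff]
      intro x hx hx'
      exact hWA hx' hx
    rw [dj_iso, dj_iff] at h1
    have h2 := h.2 V.1 V.2 (fun x hx hx' => h1 x hx' hx)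
    rw [fin_iff] at h2
    have h3 : (Set.Iic (Φ V)).Finite := by
      rw [← Φ.image_Iic]
      exact h2.image _
    rw [← fin_iff, hV] at h3
    exact h3

theorem simple_B : Simple rB := by
  constructor
  · refine W_coinf.mono fun x hx => ?_
    have hx' : x ∉ Wset := hx
    exact fun hB => hx' (Or.inl hB)
  · intro W hW hWB
    by_contra hinf
    obtain ⟨e, he⟩ := exists_index hW
    have h1 : (U e \ Bset).Infinite := by
      refine (show W.Infinite from hinf).mono fun x hx => ⟨(he x).2 hx, hWB hx⟩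
    obtain ⟨z, hz, hz'⟩ := meetN h1
    exact hWB ((he z).1 hz') (A0_sub hz)

theorem split0 {W : Set ℕ} (hn : ¬ REPred fun n : ℕ => n ∈ W \ Bset) :
    ¬ REPred fun n : ℕ => n ∈ W \ A0 := by
  intro h
  obtain ⟨e, he⟩ := exists_index h
  have hinf : (U e \ Bset).Infinite := by
    intro hfin
    apply hn
    have h1 : U e \ Bset = W \ Bset := by
      ext x
      constructor
      · rintro ⟨h1, h2⟩
        exact ⟨((he x).1 h1).1, h2⟩
      · rintro ⟨h1, h2⟩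
        exact ⟨(he x).2 ⟨h1, fun h3 => h2 (A0_sub h3)⟩, h2⟩
    rw [h1] at hfin
    exact re_finite hfin
  obtain ⟨z, hz, hz'⟩ := meetN hinf
  exact ((he z).1 hz').2 hz

theorem split1 {W : Set ℕ} (hn : ¬ REPred fun n : ℕ => n ∈ W \ Bset) :
    ¬ REPred fun n : ℕ => n ∈ W \ A1 := by
  intro h
  obtain ⟨e, he⟩ := exists_index h
  obtain ⟨o, ho⟩ := exists_index (re_finite Set.finite_empty)
  have hinf : ((U o ∪ U e) \ (U o ∪ Bset)).Infinite := by
    intro hfin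
    apply hn
    have h1 : (U o ∪ U e) \ (U o ∪ Bset) = W \ Bset := by
      ext x
      have h0 : x ∉ U o := fun h => (ho x).1 h
      constructor
      · rintro ⟨h1 | h1, h2⟩
        · exact (h0 h1).elim
        · exact ⟨((he x).1 h1).1, fun h3 => h2 (Or.inr h3)⟩
      · rintro ⟨h1, h2⟩
        refine ⟨Or.inr ((he x).2 ⟨h1, fun h3 => h2 (A1_sub h3)⟩), ?_⟩
        rintro (h3 | h3)
        · exact h0 h3
        · exact h2 h3
    rw [h1] at hfin
    exact re_finite hfin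
  rcases meetQ hinf with ⟨z, hz, _⟩ | ⟨z, hz, t, e', h', hk, hel, _⟩
  · exact (ho z).1 hz
  · exact ((he z).1 hz).2 ⟨t, e', h', hk, hel⟩

end Pool.Agent.Helper90.Fried
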