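import Pool.Agent.Helper90.Fried.Constr

set_option autoImplicit false

namespace Pool.Agent.Helper90.Fried

/-- The event of stage `t`. -/
def ac (t : ℕ) : Option Ev := act (St t) t (nn t) (zz t)

theorem mem_St {s : ℕ} {e : Ev} : e ∈ St s ↔ ∃ t < s, ac t = some e := by
  induction s with
  | zero => simp [St]
  | succ s ih =>
    have h1 : St (s + 1) = (ac s).toList ++ St s := rfl
    rw [h1, List.mem_append, ih]
    constructor
    · rintro (h | ⟨t, ht, h⟩)
      · refine ⟨s, Nat.lt_succ_self s, ?_⟩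
        simpa using h
      · exact ⟨t, Nat.lt_succ_of_lt ht, h⟩
    · rintro ⟨t, ht, h⟩
      rcases Nat.lt_succ_iff_lt_or_eq.1 ht with h2 | rfl
      · exact Or.inr ⟨t, h2, h⟩
      · left; simpa using h

theorem St_mono {s t : ℕ} (h : s ≤ t) {e : Ev} (he : e ∈ St s) : e ∈ St t := by
  rw [mem_St] at *
  obtain ⟨r, hr, h1⟩ := he
  exact ⟨r, lt_of_lt_of_le hr h, h1⟩

theorem act_some {L : List Ev} {s n z : ℕ} {e : Ev} (h : act L s n z = some e) :
    (el e = z ∧ rq e = n ∧ tm e = s) ∧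
    ((n % 2 = 0 ∧ ¬ satN L s n ∧ isCand L z n ∧ free L z n ∧ elig L s z n ∧ kd e = 0) ∨
    (n % 2 = 0 ∧ ¬ satN L s n ∧ ¬ isCand L z n ∧ Uin (n / 2) s z ∧ free L z n ∧
      4 * Nat.pair n (cnt L n) < z ∧ kd e = 2 ∧ rk e = cnt L n) ∨
    (n % 2 = 1 ∧ ¬ satQ L n ∧ free L z n ∧ ¬ Uin (qi n) s z ∧
      4 * Nat.pair n (cnt L n) < z ∧ Uin (qk n) s z ∧ kd e = 1 ∧ rk e = cnt L n) ∨
    (n % 2 = 1 ∧ ¬ satQ L n ∧ free L z n ∧ ¬ Uin (qi n) s z ∧
      4 * Nat.pair n (cnt L n) < z ∧ ¬ Uin (qk n) s z ∧ Uin (qj n) s z ∧ kd e = 2 ∧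
      rk e = cnt L n)) := by
  unfold act at h
  split_ifs at h with h1 h2 h3 h4 h5 h6 h7 h8 h9
  · obtain rfl := Option.some.inj h
    exact ⟨⟨rfl, rfl, rfl⟩, Or.inl ⟨h1, h2, h3, h4.1, h4.2, rfl⟩⟩
  · obtain rfl := Option.some.inj h
    exact ⟨⟨rfl, rfl, rfl⟩, Or.inr (Or.inl ⟨h1, h2, h3, h5.1, h5.2.1, h5.2.2, rfl, rfl⟩)⟩
  · obtain rfl := Option.some.inj h
    exact ⟨⟨rfl, rfl, rfl⟩, Or.inr (Or.inr (Or.inl ⟨by omega, h6, h7.1, h7.2.1, h7.2.2, h8,
      rfl, rfl⟩))⟩
  · obtain rfl := Option.some.inj h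
    exact ⟨⟨rfl, rfl, rfl⟩, Or.inr (Or.inr (Or.inr ⟨by omega, h6, h7.1, h7.2.1, h7.2.2, h8, h9,
      rfl, rfl⟩))⟩

theorem ac_some {t : ℕ} {e : Ev} (h : ac t = some e) :
    (el e = zz t ∧ rq e = nn t ∧ tm e = t) ∧
    ((nn t % 2 = 0 ∧ ¬ satN (St t) t (nn t) ∧ isCand (St t) (zz t) (nn t) ∧
      free (St t) (zz t) (nn t) ∧ elig (St t) t (zz t) (nn t) ∧ kd e = 0) ∨
    (nn t % 2 = 0 ∧ ¬ satN (St t) t (nn t) ∧ ¬ isCand (St t) (zz t) (nn t) ∧
      Uin (nn t / 2) t (zz t) ∧ free (St t) (zz t) (nn t) ∧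
      4 * Nat.pair (nn t) (cnt (St t) (nn t)) < zz t ∧ kd e = 2 ∧ rk e = cnt (St t) (nn t)) ∨
    (nn t % 2 = 1 ∧ ¬ satQ (St t) (nn t) ∧ free (St t) (zz t) (nn t) ∧ ¬ Uin (qi (nn t)) t (zz t) ∧
      4 * Nat.pair (nn t) (cnt (St t) (nn t)) < zz t ∧ Uin (qk (nn t)) t (zz t) ∧ kd e = 1 ∧
      rk e = cnt (St t) (nn t)) ∨
    (nn t % 2 = 1 ∧ ¬ satQ (St t) (nn t) ∧ free (St t) (zz t) (nn t) ∧ ¬ Uin (qi (nn t)) t (zz t) ∧
      4 * Nat.pair (nn t) (cnt (St t) (nn t)) < zz t ∧ ¬ Uin (qk (nn t)) t (zz t) ∧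
      Uin (qj (nn t)) t (zz t) ∧ kd e = 2 ∧
      rk e = cnt (St t) (nn t))) := act_some h

theorem ac_free {t : ℕ} {e : Ev} (h : ac t = some e) : free (St t) (el e) (rq e) := by
  obtain ⟨⟨h1, h2, h3⟩, h4⟩ := ac_some h
  rw [h1, h2]
  rcases h4 with h4 | h4 | h4 | h4
  · exact h4.2.2.2.1
  · exact h4.2.2.2.2.1
  · exact h4.2.2.1
  · exact h4.2.2.1

theorem ac_tm {t : ℕ} {e : Ev} (h : ac t = some e) : tm e = t := (ac_some h).1.2.2

theorem kd_le {t : ℕ} {e : Ev} (h : ac t = some e) : kd e = 0 ∨ kd e = 1 ∨ kd e = 2 := by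
  obtain ⟨_, h4⟩ := ac_some h
  rcases h4 with h4 | h4 | h4 | h4 <;> tauto

theorem inB_mono {s t : ℕ} (h : s ≤ t) {z : ℕ} (hz : inB (St s) z) : inB (St t) z := by
  obtain ⟨e, he, h1⟩ := hz
  exact ⟨e, St_mono h he, h1⟩

theorem isCand_mono {s t : ℕ} (h : s ≤ t) {z n : ℕ} (hz : isCand (St s) z n) :
    isCand (St t) z n := by
  obtain ⟨e, he, h1⟩ := hz
  exact ⟨e, St_mono h he, h1⟩

theorem satN_mono {s t : ℕ} (h : s ≤ t) {n : ℕ} (hz : satN (St s) s n) : satN (St t) t n := by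
  obtain ⟨e, he, h1, h2⟩ := hz
  exact ⟨e, St_mono h he, h1, Uin_mono h h2⟩

/-- Two events which put the same number into `B` are equal. -/
theorem uniq {t t' : ℕ} {e e' : Ev} (h : ac t = some e) (h' : ac t' = some e') (hk : kd e < 2)
    (hk' : kd e' < 2) (hz : el e = el e') : t = t' := by
  rcases lt_trichotomy t t' with h1 | h1 | h1
  · exfalso
    have := (ac_free h').1
    exact this ⟨e, mem_St.2 ⟨t, h1, h⟩, hk, hz⟩
  · exact h1
  · exfalso
    have := (ac_free h).1
    exact this ⟨e', mem_St.2 ⟨t', h1, h'⟩, hk', hz.symm⟩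

/-- Requirement `n` does not act any more from stage `s` on. -/
def Quiet (s n : ℕ) : Prop := ∀ t, s ≤ t → nn t = n → ac t = none

theorem quiet_mono {s t n : ℕ} (h : s ≤ t) (hq : Quiet s n) : Quiet t n :=
  fun r hr h1 => hq r (h.trans hr) h1

theorem quiet_lt {n : ℕ} (h : ∀ m < n, ∃ s, Quiet s m) : ∃ s, ∀ m < n, Quiet s m := by
  induction n with
  | zero => exact ⟨0, fun m hm => absurd hm (Nat.not_lt_zero m)⟩
  | succ n ih =>
    obtain ⟨s, hs⟩ := ih fun m hm => h m (Nat.lt_succ_of_lt hm)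
    obtain ⟨t, ht⟩ := h n (Nat.lt_succ_self n)
    refine ⟨max s t, fun m hm => ?_⟩
    rcases Nat.lt_succ_iff_lt_or_eq.1 hm with h1 | rfl
    · exact quiet_mono (le_max_left _ _) (hs m h1)
    · exact quiet_mono (le_max_right _ _) ht

/-- Every pair of a requirement and a number is considered infinitely often. -/
theorem visit (n z s : ℕ) : ∃ t, s ≤ t ∧ nn t = n ∧ zz t = z := by
  refine ⟨Nat.pair n (Nat.pair z s), ?_, ?_, ?_⟩
  · exact (Nat.right_le_pair z s).trans (Nat.right_le_pair _ _)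
  · simp [nn]
  · simp [zz]

/-- A candidate adopted late is not injured. -/
theorem protect {s0 n t1 : ℕ} {e : Ev} (hq : ∀ m < n, Quiet s0 m) (ht : s0 ≤ t1)
    (he : ac t1 = some e) (hk : kd e = 2) (hn : rq e = n)
    (hno : ∀ t e', ac t = some e' → t1 < t → rq e' = n → kd e' = 2) {s : ℕ} (hs : t1 < s) :
    free (St s) (el e) n := by
  have hf := ac_free he
  rw [hn] at hf
  constructor
  · rintro ⟨e', he', hk', hz'⟩
    obtain ⟨t', ht', h'⟩ := mem_St.1 he'
    rcases lt_trichotomy t' t1 with h1 | h1 | h1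
    · exact hf.1 ⟨e', mem_St.2 ⟨t', h1, h'⟩, hk', hz'⟩
    · subst h1
      rw [he] at h'
      obtain rfl := Option.some.inj h'
      omega
    · have h2 := (ac_free h').2 e (mem_St.2 ⟨t1, h1, he⟩) hk hz'.symm
      rw [hn] at h2
      have h3 := (ac_some h').1.2.1
      rcases lt_or_eq_of_le h2 with h4 | h4
      · have h5 := hq _ h4 t' (ht.trans h1.le) h3.symm
        rw [h'] at h5
        cases h5
      · have h5 := hno t' e' h' h1 h4
        omega
  · intro e' he' hk' hz'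
    obtain ⟨t', ht', h'⟩ := mem_St.1 he'
    rcases lt_trichotomy t' t1 with h1 | h1 | h1
    · exact hf.2 e' (mem_St.2 ⟨t', h1, h'⟩) hk' hz'
    · subst h1
      rw [he] at h'
      obtain rfl := Option.some.inj h'
      exact hn.ge
    · by_contra h2
      push Not at h2
      have h5 := hq _ h2 t' (ht.trans h1.le) (ac_some h').1.2.1.symm
      rw [h'] at h5
      cases h5

/-- `z` is in `B`. -/
def Bset : Set ℕ := {z | ∃ s, inB (St s) z}

/-- The even candidates. -/
def Cset : Set ℕ := {z | ∃ t e, ac t = some e ∧ kd e = 2 ∧ rq e % 2 = 0 ∧ el e = z}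

/-- Requirement `i` is good. -/
def Good (i : ℕ) : Prop := ∀ z ∈ Cset, z ∉ Bset → z ∈ U i

theorem satN_quiet {s n : ℕ} (hn : n % 2 = 0) (h : satN (St s) s n) : Quiet s n := by
  intro t ht hnn
  cases h' : ac t with
  | none => rfl
  | some e =>
    exfalso
    obtain ⟨_, h4⟩ := ac_some h'
    have h5 := satN_mono ht h
    rw [hnn] at h4
    rcases h4 with h4 | h4 | h4 | h4
    · exact h4.2.1 h5
    · exact h4.2.1 h5
    · omega
    · omega

theorem isCand_U {s z n : ℕ} (hn : n % 2 = 0) (h : isCand (St s) z n) : Uin (n / 2) s z := by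
  obtain ⟨e, he, hk, hz, hr⟩ := h
  obtain ⟨t, ht, h'⟩ := mem_St.1 he
  obtain ⟨⟨h1, h2, h3⟩, h4⟩ := ac_some h'
  rw [← h1, ← h2, hr, hz] at h4
  rcases h4 with h4 | h4 | h4 | h4
  · omega
  · exact Uin_mono ht.le h4.2.2.2.1
  · omega
  · omega

theorem quiet_all (n : ℕ) : ∃ s, Quiet s n := by
  induction n using Nat.strong_induction_on with
  | _ n ih =>
  obtain ⟨s0, hs0⟩ := quiet_lt ih
  rcases Nat.mod_two_eq_zero_or_one n with hn | hn
  · -- even
    by_contra hcon
    push Not at hcon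
    have hsat : ∀ s, ¬ satN (St s) s n := fun s h => hcon s (satN_quiet hn h)
    -- no event of kind 0
    have hno : ∀ t e, ac t = some e → rq e = n → kd e = 2 := by
      intro t e h hr
      obtain ⟨⟨h1, h2, h3⟩, h4⟩ := ac_some h
      rw [← h2, hr, ← h1] at h4
      rcases h4 with h4 | h4 | h4 | h4
      · exfalso
        have h5 := isCand_U hn h4.2.2.1
        exact hsat (t + 1) ⟨e, mem_St.2 ⟨t, Nat.lt_succ_self t, h⟩, h4.2.2.2.2.2,
          Uin_mono (Nat.le_succ t) h5⟩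
      · exact h4.2.2.2.2.2.2.1
      · omega
      · omega
    -- infinitely many candidates
    have hinf : ∀ N, ∃ t e, s0 ≤ t ∧ ac t = some e ∧ rq e = n ∧ N < el e := by
      intro N
      by_contra hN
      push Not at hN
      -- the events of n after s0 have distinct numbers ≤ N
      have hfin : ({t | s0 ≤ t ∧ nn t = n ∧ ac t ≠ none} : Set ℕ).Finite := by
        have hinj : Set.InjOn zz {t | s0 ≤ t ∧ nn t = n ∧ ac t ≠ none} := by
          intro t ht t' ht' hz
          obtain ⟨e, he⟩ := Option.ne_none_iff_exists'.1 ht.2.2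
          obtain ⟨e', he'⟩ := Option.ne_none_iff_exists'.1 ht'.2.2
          obtain ⟨⟨h1, h2, h3⟩, h4⟩ := ac_some he
          obtain ⟨⟨h1', h2', h3'⟩, h4'⟩ := ac_some he'
          have hk := hno t e he (h2.trans ht.2.1)
          have hk' := hno t' e' he' (h2'.trans ht'.2.1)
          rw [ht.2.1] at h4 h2
          rw [ht'.2.1] at h4' h2'
          have hc : ¬ isCand (St t) (zz t) n := by
            rcases h4 with h4 | h4 | h4 | h4
            · omega
            · exact h4.2.2.1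
            · omega
            · omega
          have hc' : ¬ isCand (St t') (zz t') n := by
            rcases h4' with h4 | h4 | h4 | h4
            · omega
            · exact h4.2.2.1
            · omega
            · omega
          rcases lt_trichotomy t t' with h5 | h5 | h5
          · exact absurd ⟨e, mem_St.2 ⟨t, h5, he⟩, hk, h1.trans hz, h2⟩ hc'
          · exact h5
          · exact absurd ⟨e', mem_St.2 ⟨t', h5, he'⟩, hk', h1'.trans hz.symm, h2'⟩ hc
        refine Set.Finite.of_finite_image ((Set.finite_Iic N).subset ?_) hinj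
        rintro _ ⟨t, ht, rfl⟩
        obtain ⟨e, he⟩ := Option.ne_none_iff_exists'.1 ht.2.2
        obtain ⟨⟨h1, h2, h3⟩, h4⟩ := ac_some he
        have := hN t e ht.1 he (h2.trans ht.2.1)
        rw [h1] at this
        exact this
      obtain ⟨M, hM⟩ := hfin.bddAbove
      apply hcon (max s0 (M + 1))
      intro t ht hnn
      by_contra hne
      have := hM (show t ∈ {t | s0 ≤ t ∧ nn t = n ∧ ac t ≠ none} from
        ⟨(le_max_left _ _).trans ht, hnn, hne⟩)
      have := (le_max_right s0 (M + 1)).trans ht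
      omega
    -- a bound for the witnesses
    have hbad : ∀ i, ∃ T, Good i ∨ ∃ t e, ac t = some e ∧ kd e = 2 ∧ rq e % 2 = 0 ∧ t < T ∧
        el e ∉ Bset ∧ el e ∉ U i := by
      intro i
      by_cases hg : Good i
      · exact ⟨0, Or.inl hg⟩
      · unfold Good at hg
        push Not at hg
        obtain ⟨z, ⟨t, e, h, hk, hr, rfl⟩, hB, hU⟩ := hg
        exact ⟨t + 1, Or.inr ⟨t, e, h, hk, hr, Nat.lt_succ_self t, hB, hU⟩⟩
    choose T hT using hbad
    obtain ⟨t1, e1, ht1, he1, hr1, hz1⟩ := hinf ((Finset.range (n + 1)).sup T)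
    have hk1 := hno t1 e1 he1 hr1
    have hfree : ∀ s, t1 < s → free (St s) (el e1) n := fun s hs =>
      protect hs0 ht1 he1 hk1 hr1 (fun t e' h _ hr => hno t e' h hr) hs
    have hnB : el e1 ∉ Bset := by
      rintro ⟨s, hs⟩
      exact (hfree (max s (t1 + 1)) (lt_of_lt_of_le (Nat.lt_succ_self t1) (le_max_right _ _))).1
        (inB_mono (le_max_left _ _) hs)
    have hC : el e1 ∈ Cset := ⟨t1, e1, he1, hk1, by rw [hr1]; exact hn, rfl⟩
    have helig : ∀ i < n + 1, ∃ s, ∀ s', s ≤ s' → Uin i s' (el e1) ∨ wit (St s') s' (el e1) i := by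
      intro i hi
      rcases hT i with hg | ⟨t, e, h, hk, hr, ht, hB, hU⟩
      · obtain ⟨s, hs⟩ := hg _ hC hnB
        exact ⟨s, fun s' h' => Or.inl (Uin_mono h' hs)⟩
      · refine ⟨t + 1, fun s' h' => Or.inr ⟨e, mem_St.2 ⟨t, h', h⟩, hk, hr, ?_, ?_, ?_⟩⟩
        · rw [ac_tm h]
          have : T i ≤ (Finset.range (n + 1)).sup T :=
            Finset.le_sup (f := T) (Finset.mem_range.2 hi)
          omega
        · intro hb
          exact hB ⟨s', hb⟩
        · intro hb
          exact hU ⟨s', hb⟩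
    have helig2 : ∃ s, ∀ s', s ≤ s' → elig (St s') s' (el e1) n := by
      have : ∀ i, ∃ s, i < n + 1 → ∀ s', s ≤ s' →
          Uin i s' (el e1) ∨ wit (St s') s' (el e1) i := by
        intro i
        by_cases hi : i < n + 1
        · obtain ⟨s, hs⟩ := helig i hi
          exact ⟨s, fun _ => hs⟩
        · exact ⟨0, fun h => absurd h hi⟩
      choose S hS using this
      refine ⟨(Finset.range (n + 1)).sup S, fun s' h' i hi => hS i hi s' (le_trans ?_ h')⟩
      exact Finset.le_sup (f := S) (Finset.mem_range.2 hi)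
    obtain ⟨s2, hs2⟩ := helig2
    obtain ⟨s, hs, hnn, hzz⟩ := visit n (el e1) (max s2 (t1 + 1))
    have hs3 : s2 ≤ s := (le_max_left _ _).trans hs
    have hs4 : t1 < s := lt_of_lt_of_le (Nat.lt_succ_self t1) ((le_max_right _ _).trans hs)
    have hact : ac s = some (0, el e1, n, 0, s) := by
      unfold ac
      rw [hnn, hzz]
      unfold act
      rw [if_pos hn, if_neg (hsat s), if_pos ⟨e1, mem_St.2 ⟨t1, hs4, he1⟩, hk1, rfl, hr1⟩,
        if_pos ⟨hfree s hs4, hs2 s hs3⟩]
    have := hno s _ hact rfl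
    simp at this
  · -- odd
    by_cases h1 : ∃ t e, ac t = some e ∧ kd e = 1 ∧ rq e = n
    · obtain ⟨t, e, h, hk, hr⟩ := h1
      refine ⟨t + 1, fun s hs hnn => ?_⟩
      cases h' : ac s with
      | none => rfl
      | some e' =>
        exfalso
        obtain ⟨_, h4⟩ := ac_some h'
        have h5 : satQ (St s) n := Or.inl ⟨e, mem_St.2 ⟨t, hs, h⟩, hk, hr⟩
        rw [hnn] at h4
        rcases h4 with h4 | h4 | h4 | h4
        · omega
        · omega
        · exact h4.2.1 h5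
        · exact h4.2.1 h5
    · push Not at h1
      have hno : ∀ t e, ac t = some e → rq e = n → kd e = 2 := by
        intro t e h hr
        have h2 := h1 t e h
        obtain ⟨⟨_, h3, _⟩, h4⟩ := ac_some h
        rw [← h3, hr] at h4
        rcases h4 with h4 | h4 | h4 | h4
        · omega
        · omega
        · exact absurd hr (h2 h4.2.2.2.2.2.2.1)
        · exact h4.2.2.2.2.2.2.2.1
      by_cases h2 : ∃ t e, s0 ≤ t ∧ ac t = some e ∧ rq e = n
      · obtain ⟨t1, e1, ht1, he1, hr1⟩ := h2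
        have hk1 := hno t1 e1 he1 hr1
        refine ⟨t1 + 1, fun s hs hnn => ?_⟩
        cases h' : ac s with
        | none => rfl
        | some e' =>
          exfalso
          obtain ⟨_, h4⟩ := ac_some h'
          have h6 := protect hs0 ht1 he1 hk1 hr1 (fun t e' h _ hr => hno t e' h hr) hs
          have h5 : satQ (St s) n := Or.inr ⟨e1, mem_St.2 ⟨t1, hs, he1⟩, hk1, hr1, h6.1⟩
          rw [hnn] at h4
          rcases h4 with h4 | h4 | h4 | h4
          · omega
          · omega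
          · exact h4.2.1 h5
          · exact h4.2.1 h5
      · push Not at h2
        refine ⟨s0, fun s hs hnn => ?_⟩
        cases h' : ac s with
        | none => rfl
        | some e' =>
          exfalso
          exact h2 s e' hs h' ((ac_some h').1.2.1.trans hnn)

end Pool.Agent.Helper90.Fried
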