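import Pool.Agent.Helper90.Fried.Verify

set_option autoImplicit false

namespace Pool.Agent.Helper90.Fried

/-- The first half. -/
def A0 : Set ℕ := {z | ∃ t e, ac t = some e ∧ kd e = 0 ∧ el e = z}

/-- The second half. -/
def A1 : Set ℕ := {z | ∃ t e, ac t = some e ∧ kd e = 1 ∧ el e = z}

/-- The superset of `B`. -/
def Wset : Set ℕ := Bset ∪ Cset

theorem Bset_eq : Bset = A0 ∪ A1 := by
  ext z
  constructor
  · rintro ⟨s, e, he, hk, rfl⟩
    obtain ⟨t, _, h⟩ := mem_St.1 he
    rcases kd_le h with h1 | h1 | h1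
    · exact Or.inl ⟨t, e, h, h1, rfl⟩
    · exact Or.inr ⟨t, e, h, h1, rfl⟩
    · omega
  · rintro (⟨t, e, h, hk, rfl⟩ | ⟨t, e, h, hk, rfl⟩)
    · exact ⟨t + 1, e, mem_St.2 ⟨t, Nat.lt_succ_self t, h⟩, by omega, rfl⟩
    · exact ⟨t + 1, e, mem_St.2 ⟨t, Nat.lt_succ_self t, h⟩, by omega, rfl⟩

theorem disj : ∀ z, z ∈ A0 → z ∉ A1 := by
  rintro z ⟨t, e, h, hk, hz⟩ ⟨t', e', h', hk', hz'⟩
  have h1 := uniq h h' (by omega) (by omega) (hz.trans hz'.symm)
  subst h1
  rw [h] at h'
  obtain rfl := Option.some.inj h'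
  omega

theorem quiet_le (n : ℕ) : ∃ s, ∀ m ≤ n, Quiet s m := by
  obtain ⟨s, hs⟩ := quiet_lt (n := n + 1) fun m _ => quiet_all m
  exact ⟨s, fun m hm => hs m (Nat.lt_succ_of_le hm)⟩

theorem cnt_quiet {s t n : ℕ} (hq : Quiet s n) (ht : s ≤ t) : cnt (St t) n = cnt (St s) n := by
  induction t, ht using Nat.le_induction with
  | base => rfl
  | succ t ht ih =>
    rw [← ih]
    have h1 : St (t + 1) = (ac t).toList ++ St t := rfl
    rw [h1]
    unfold cnt
    rw [List.filter_append, List.length_append]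
    have h2 : (List.filter (fun e => decide (kd e = 2 ∧ rq e = n)) (ac t).toList).length = 0 := by
      rw [List.length_eq_zero_iff, List.filter_eq_nil_iff]
      intro e he
      simp only [Option.mem_toList] at he
      have he' : ac t = some e := by simpa using he
      intro h3
      have h4 : kd e = 2 ∧ rq e = n := by simpa using h3
      have h5 := hq t ht ((ac_some he').1.2.1.symm.trans h4.2)
      rw [he'] at h5
      cases h5
    omega

theorem old_of_quiet {s t : ℕ} {e : Ev} (hq : Quiet s (rq e)) (h : ac t = some e) : e ∈ St s := by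
  refine mem_St.2 ⟨t, ?_, h⟩
  by_contra hlt
  push Not at hlt
  have := hq t hlt (ac_some h).1.2.1.symm
  rw [h] at this
  cases this

/-- The finite set of numbers of the events of a state. -/
theorem fin_els (s : ℕ) : ({z | ∃ e ∈ St s, el e = z} : Set ℕ).Finite := by
  refine ((St s).map el).toFinset.finite_toSet.subset ?_
  rintro z ⟨e, he, rfl⟩
  simp only [Finset.mem_coe, List.mem_toFinset, List.mem_map]
  exact ⟨e, he, rfl⟩

/-- The requirements for `A0`. -/
theorem meetN {e : ℕ} (hinf : (U e \ Bset).Infinite) : ∃ z ∈ A0, z ∈ U e := by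
  by_contra hcon
  push Not at hcon
  set n := 2 * e with hn
  have hn2 : n % 2 = 0 := by omega
  have hn3 : n / 2 = e := by omega
  have hsat : ∀ s, ¬ satN (St s) s n := by
    rintro s ⟨e', he', hk, hU⟩
    obtain ⟨t, _, h⟩ := mem_St.1 he'
    rw [hn3] at hU
    exact hcon _ ⟨t, e', h, hk, rfl⟩ ⟨s, hU⟩
  obtain ⟨s1, hs1⟩ := quiet_le n
  have hbig := hinf.sdiff ((fin_els s1).union (Set.finite_Iic (4 * Nat.pair n (cnt (St s1) n))))
  obtain ⟨z, ⟨hzU, hzB⟩, hz⟩ := hbig.nonempty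
  simp only [Set.mem_union, Set.mem_ofPred_eq, Set.mem_Iic, not_or, not_exists, not_and,
    not_le] at hz
  obtain ⟨s2, hs2⟩ := hzU
  obtain ⟨s, hs, hnn, hzz⟩ := visit n z (max s1 s2)
  have h1 : s1 ≤ s := (le_max_left _ _).trans hs
  have h2 : s2 ≤ s := (le_max_right _ _).trans hs
  have hq := hs1 n le_rfl s h1 hnn
  have hold : ∀ e' ∈ St s, rq e' ≤ n → el e' ≠ z := by
    intro e' he' hr hz'
    obtain ⟨t, _, h⟩ := mem_St.1 he'
    exact hz.1 e' (old_of_quiet (hs1 _ hr) h) hz'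
  have hcand : ¬ isCand (St s) z n := by
    rintro ⟨e', he', _, hz', hr⟩
    exact hold e' he' hr.le hz'
  have hfree : free (St s) z n := by
    refine ⟨fun hb => hzB ⟨s, hb⟩, fun e' he' _ hz' => ?_⟩
    by_contra h3
    push Not at h3
    exact hold e' he' h3.le hz'
  have hb : 4 * Nat.pair n (cnt (St s) n) < z := by
    rw [cnt_quiet (hs1 n le_rfl) h1]
    exact hz.2
  have : ac s = some (2, z, n, cnt (St s) n, s) := by
    unfold ac
    rw [hnn, hzz]
    unfold act
    rw [if_pos hn2, if_neg (hsat s), if_neg hcand, if_pos ⟨by rw [hn3]; exact Uin_mono h2 hs2,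
      hfree, hb⟩]
  rw [this] at hq
  cases hq

/-- The requirements for `A1`. -/
theorem meetQ {i j k : ℕ} (hinf : ((U j ∪ U k) \ (U i ∪ Bset)).Infinite) :
    (∃ z ∈ U j, z ∉ Bset) ∨
    ∃ z ∈ U k, ∃ t e, ac t = some e ∧ kd e = 1 ∧ el e = z ∧ ¬ Uin i t z := by
  by_contra hcon
  push Not at hcon
  obtain ⟨hcon1, hcon2⟩ := hcon
  set n := 2 * Nat.pair i (Nat.pair j k) + 1 with hn
  have hn2 : n % 2 = 1 := by omega
  have hn3 : n / 2 = Nat.pair i (Nat.pair j k) := by omega
  have hqi : qi n = i := by simp [qi, hn3]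
  have hqj : qj n = j := by simp [qj, hn3]
  have hqk : qk n = k := by simp [qk, hn3]
  have hno1 : ∀ t e, ac t = some e → rq e = n → kd e ≠ 1 := by
    intro t e h hr hk
    obtain ⟨⟨hz, h3, _⟩, h4⟩ := ac_some h
    rw [← h3, hr, hqi, hqk] at h4
    rcases h4 with h4 | h4 | h4 | h4
    · omega
    · omega
    · exact h4.2.2.2.1 (hcon2 (zz t) ⟨t, h4.2.2.2.2.2.1⟩ t e h hk hz)
    · omega
  have hin2 : ∀ t e, ac t = some e → rq e = n → kd e = 2 ∧ el e ∈ Bset := by
    intro t e h hr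
    obtain ⟨⟨hz, h3, _⟩, h4⟩ := ac_some h
    rw [← h3, hr, hqj] at h4
    rcases h4 with h4 | h4 | h4 | h4
    · omega
    · omega
    · exact absurd h4.2.2.2.2.2.2.1 (hno1 t e h hr)
    · refine ⟨h4.2.2.2.2.2.2.2.1, ?_⟩
      by_contra hB
      rw [hz] at hB
      exact hB (hcon1 _ ⟨t, h4.2.2.2.2.2.2.1⟩)
  obtain ⟨s1, hs1⟩ := quiet_le n
  -- all candidates of n are in B at a late stage
  have hlate : ∃ s2, ∀ s, s2 ≤ s → ¬ satQ (St s) n := by
    have h1 : ∀ e : Ev, ∃ s, (∃ t, ac t = some e) → rq e = n → inB (St s) (el e) := by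
      intro e
      by_cases h : (∃ t, ac t = some e) ∧ rq e = n
      · obtain ⟨⟨t, ht⟩, hr⟩ := h
        obtain ⟨s, hs⟩ := (hin2 t e ht hr).2
        exact ⟨s, fun _ _ => hs⟩
      · exact ⟨0, fun h1 h2 => absurd ⟨h1, h2⟩ h⟩
    choose f hf using h1
    refine ⟨((St s1).toFinset.sup f), fun s hs hsat => ?_⟩
    rcases hsat with ⟨e, he, hk, hr⟩ | ⟨e, he, hk, hr, hB⟩
    · obtain ⟨t, _, h⟩ := mem_St.1 he
      exact hno1 t e h hr hk
    · obtain ⟨t, _, h⟩ := mem_St.1 he
      have h5 : e ∈ St s1 := old_of_quiet (by rw [hr]; exact hs1 n le_rfl) h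
      have h6 : f e ≤ (St s1).toFinset.sup f := Finset.le_sup (List.mem_toFinset.2 h5)
      exact hB (inB_mono (h6.trans hs) (hf e ⟨t, h⟩ hr))
  obtain ⟨s3, hs3⟩ := hlate
  have hbig := hinf.sdiff ((fin_els s1).union (Set.finite_Iic (4 * Nat.pair n (cnt (St s1) n))))
  obtain ⟨z, ⟨hzU, hzB⟩, hz⟩ := hbig.nonempty
  simp only [Set.mem_union, Set.mem_ofPred_eq, Set.mem_Iic, not_or, not_exists, not_and,
    not_le] at hz
  rw [Set.mem_union, not_or] at hzB
  obtain ⟨s2, hs2⟩ : ∃ s2, Uin j s2 z ∨ Uin k s2 z := by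
    rcases hzU with ⟨s, h⟩ | ⟨s, h⟩
    · exact ⟨s, Or.inl h⟩
    · exact ⟨s, Or.inr h⟩
  obtain ⟨s, hs, hnn, hzz⟩ := visit n z (max s1 (max s2 s3))
  have h1 : s1 ≤ s := (le_max_left _ _).trans hs
  have h2 : s2 ≤ s := (le_max_left _ _).trans ((le_max_right _ _).trans hs)
  have h3 : s3 ≤ s := (le_max_right _ _).trans ((le_max_right _ _).trans hs)
  have hq := hs1 n le_rfl s h1 hnn
  have hold : ∀ e' ∈ St s, rq e' ≤ n → el e' ≠ z := by
    intro e' he' hr hz'
    obtain ⟨t, _, h⟩ := mem_St.1 he'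
    exact hz.1 e' (old_of_quiet (hs1 _ hr) h) hz'
  have hfree : free (St s) z n := by
    refine ⟨fun hb => hzB.2 ⟨s, hb⟩, fun e' he' _ hz' => ?_⟩
    by_contra h3
    push Not at h3
    exact hold e' he' h3.le hz'
  have hb : 4 * Nat.pair n (cnt (St s) n) < z := by
    rw [cnt_quiet (hs1 n le_rfl) h1]
    exact hz.2
  have hi : ¬ Uin (qi n) s z := by
    rw [hqi]
    exact fun h => hzB.1 ⟨s, h⟩
  have hcases : Uin (qj n) s z ∨ Uin (qk n) s z := by
    rw [hqj, hqk]
    rcases hs2 with h | h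
    · exact Or.inl (Uin_mono h2 h)
    · exact Or.inr (Uin_mono h2 h)
  have hne : ac s ≠ none := by
    unfold ac
    rw [hnn, hzz]
    unfold act
    rw [if_neg (by omega), if_neg (hs3 s h3), if_pos ⟨hfree, hi, hb⟩]
    by_cases hk : Uin (qk n) s z
    · rw [if_pos hk]; simp
    · rw [if_neg hk, if_pos (hcases.resolve_right hk)]; simp
  exact hne hq

/-! ### The complement of `W` is infinite -/

/-- Main events. -/
def main (e : Ev) : Prop := kd e = 1 ∨ (kd e = 2 ∧ rq e % 2 = 0)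

theorem W_main {z : ℕ} (hz : z ∈ Wset) : ∃ t e, ac t = some e ∧ main e ∧ el e = z := by
  rcases hz with hz | ⟨t, e, h, hk, hr, hz⟩
  · rw [Bset_eq] at hz
    rcases hz with ⟨t, e, h, hk, hz⟩ | ⟨t, e, h, hk, hz⟩
    · obtain ⟨⟨h1, h2, h3⟩, h4⟩ := ac_some h
      rcases h4 with h4 | h4 | h4 | h4
      · obtain ⟨e', he', hk', hz', hr'⟩ := h4.2.2.1
        obtain ⟨t', _, h'⟩ := mem_St.1 he'
        exact ⟨t', e', h', Or.inr ⟨hk', by rw [hr']; exact h4.1⟩, by rw [hz', ← h1, hz]⟩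
      · omega
      · omega
      · omega
    · exact ⟨t, e, h, Or.inl hk, hz⟩
  · exact ⟨t, e, h, Or.inr ⟨hk, hr⟩, hz⟩

theorem main_bound {t : ℕ} {e : Ev} (h : ac t = some e) (hm : main e) :
    4 * Nat.pair (rq e) (rk e) < el e := by
  obtain ⟨⟨h1, h2, h3⟩, h4⟩ := ac_some h
  unfold main at hm
  rcases h4 with h4 | h4 | h4 | h4
  · omega
  · rw [h1, h2, h4.2.2.2.2.2.2.2]; exact h4.2.2.2.2.2.1
  · rw [h1, h2, h4.2.2.2.2.2.2.2]; exact h4.2.2.2.2.1
  · rw [h2] at hm; omega

theorem cnt_lt {t t' : ℕ} {e : Ev} (h : ac t = some e) (hk : kd e = 2) (ht : t < t') :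
    cnt (St t) (rq e) < cnt (St t') (rq e) := by
  induction t', ht using Nat.le_induction with
  | base =>
    have h1 : St (t + 1) = (ac t).toList ++ St t := rfl
    unfold cnt
    rw [h1, h]
    simp [hk]
  | succ t' ht ih =>
    refine lt_of_lt_of_le ih ?_
    have h1 : St (t' + 1) = (ac t').toList ++ St t' := rfl
    unfold cnt
    rw [h1, List.filter_append, List.length_append]
    omega

theorem main_inj {t t' : ℕ} {e e' : Ev} (h : ac t = some e) (h' : ac t' = some e')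
    (hm : main e) (hm' : main e') (hr : rq e = rq e') (hk : rk e = rk e') : el e = el e' := by
  have key : ∀ {t t' : ℕ} {e e' : Ev}, ac t = some e → ac t' = some e' → main e → main e' →
      rq e = rq e' → rk e = rk e' → t < t' → False := by
    intro t t' e e' h h' hm hm' hr hk hlt
    obtain ⟨⟨h1, h2, h3⟩, h4⟩ := ac_some h
    obtain ⟨⟨h1', h2', h3'⟩, h4'⟩ := ac_some h'
    rcases Nat.mod_two_eq_zero_or_one (rq e) with hp | hp
    · -- even
      have hk2 : kd e = 2 := by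
        rcases hm with hm | hm
        · rcases h4 with h4 | h4 | h4 | h4 <;> omega
        · exact hm.1
      have hk2' : kd e' = 2 := by
        rcases hm' with hm | hm
        · rcases h4' with h4 | h4 | h4 | h4 <;> omega
        · exact hm.1
      have hr1 : rk e = cnt (St t) (rq e) := by
        rw [h2]
        rcases h4 with h4 | h4 | h4 | h4
        · omega
        · exact h4.2.2.2.2.2.2.2
        · omega
        · exact h4.2.2.2.2.2.2.2.2
      have hr1' : rk e' = cnt (St t') (rq e') := by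
        rw [h2']
        rcases h4' with h4 | h4 | h4 | h4
        · omega
        · exact h4.2.2.2.2.2.2.2
        · omega
        · exact h4.2.2.2.2.2.2.2.2
      have := cnt_lt h hk2 hlt
      rw [hr] at this hr1
      omega
    · -- odd
      have hk1 : kd e = 1 := by
        rcases hm with hm | hm
        · exact hm
        · omega
      have hs : satQ (St t') (nn t') :=
        Or.inl ⟨e, mem_St.2 ⟨t, hlt, h⟩, hk1, by rw [hr, h2']⟩
      rw [h2'] at hr
      rcases h4' with h4 | h4 | h4 | h4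
      · omega
      · omega
      · exact h4.2.1 hs
      · exact h4.2.1 hs
  rcases lt_trichotomy t t' with h1 | h1 | h1
  · exact (key h h' hm hm' hr hk h1).elim
  · subst h1
    rw [h] at h'
    obtain rfl := Option.some.inj h'
    rfl
  · exact (key h' h hm' hm hr.symm hk.symm h1).elim

theorem W_coinf : Wsetᶜ.Infinite := by
  intro hfin
  have h1 : ∀ z, ∃ c, z ∈ Wset → 4 * c < z ∧
      ∃ t e, ac t = some e ∧ main e ∧ el e = z ∧ Nat.pair (rq e) (rk e) = c := by
    intro z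
    by_cases hz : z ∈ Wset
    · obtain ⟨t, e, h, hm, hz'⟩ := W_main hz
      refine ⟨Nat.pair (rq e) (rk e), fun _ => ⟨?_, t, e, h, hm, hz', rfl⟩⟩
      rw [← hz']
      exact main_bound h hm
    · exact ⟨0, fun h => absurd h hz⟩
  choose c hc using h1
  obtain ⟨F, hF⟩ := hfin.exists_finset_coe
  set N := 4 * F.card + 8 with hN
  have h2 : ((Finset.range N) \ F).card ≤ (Finset.range (N / 4 + 1)).card := by
    apply Finset.card_le_card_of_injOn c
    · intro z hz
      have hz1 : z ∈ Wset := by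
        by_contra h
        have : z ∈ (F : Set ℕ) := by rw [hF]; exact h
        simp only [Finset.coe_sdiff, Set.mem_sdiff] at hz
        exact hz.2 this
      have hz2 := (hc z hz1).1
      simp only [Finset.coe_sdiff, Set.mem_sdiff, Finset.coe_range, Set.mem_Iio] at hz ⊢
      omega
    · intro z hz z' hz' hcc
      have hz1 : z ∈ Wset := by
        by_contra h
        have : z ∈ (F : Set ℕ) := by rw [hF]; exact h
        simp only [Finset.coe_sdiff, Set.mem_sdiff] at hz
        exact hz.2 this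
      have hz1' : z' ∈ Wset := by
        by_contra h
        have : z' ∈ (F : Set ℕ) := by rw [hF]; exact h
        simp only [Finset.coe_sdiff, Set.mem_sdiff] at hz'
        exact hz'.2 this
      obtain ⟨_, t, e, h, hm, rfl, hp⟩ := hc z hz1
      obtain ⟨_, t', e', h', hm', rfl, hp'⟩ := hc z' hz1'
      have hpp : Nat.pair (rq e) (rk e) = Nat.pair (rq e') (rk e') := by rw [hp, hp', hcc]
      obtain ⟨ha, hb⟩ := Nat.pair_eq_pair.1 hpp
      exact main_inj h h' hm hm' ha hb
  have h3 := Finset.le_card_sdiff F (Finset.range N)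
  rw [Finset.card_range] at h2 h3
  omega

/-! ### r.e. sets -/

theorem prim_memSt {R : Ev → ℕ → Prop} (h : PrimrecRel R) :
    PrimrecPred fun p : ℕ × ℕ => ∃ e ∈ St p.2, R e p.1 :=
  h.exists_mem_list.comp (prim_St.comp Primrec.snd) Primrec.fst

theorem re_ev {P : Ev → ℕ → Prop} (h : PrimrecRel P) :
    REPred fun z : ℕ => ∃ t e, ac t = some e ∧ P e z := by
  classical
  have h1 : REPred fun z : ℕ => ∃ s, ∃ e ∈ St s, P e z :=
    re_exists (r := fun z s => ∃ e ∈ St s, P e z) (prim_memSt h).computablePred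
  refine h1.of_eq fun z => ?_
  constructor
  · rintro ⟨s, e, he, hp⟩
    obtain ⟨t, _, h⟩ := mem_St.1 he
    exact ⟨t, e, h, hp⟩
  · rintro ⟨t, e, h, hp⟩
    exact ⟨t + 1, e, mem_St.2 ⟨t, Nat.lt_succ_self t, h⟩, hp⟩

theorem re_A0 : REPred fun z : ℕ => z ∈ A0 :=
  re_ev (P := fun e z => kd e = 0 ∧ el e = z)
    ((prim_eqc (prim_kd.comp Primrec.fst) (Primrec.const 0)).and
      (prim_eqc (prim_el.comp Primrec.fst) Primrec.snd))

theorem re_A1 : REPred fun z : ℕ => z ∈ A1 :=
  re_ev (P := fun e z => kd e = 1 ∧ el e = z)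
    ((prim_eqc (prim_kd.comp Primrec.fst) (Primrec.const 1)).and
      (prim_eqc (prim_el.comp Primrec.fst) Primrec.snd))

theorem re_C : REPred fun z : ℕ => z ∈ Cset :=
  re_ev (P := fun e z => kd e = 2 ∧ rq e % 2 = 0 ∧ el e = z)
    ((prim_eqc (prim_kd.comp Primrec.fst) (Primrec.const 2)).and
      ((prim_eqc (Primrec.nat_mod.comp (prim_rq.comp Primrec.fst) (Primrec.const 2))
        (Primrec.const 0)).and
      (prim_eqc (prim_el.comp Primrec.fst) Primrec.snd)))

theorem re_B : REPred fun z : ℕ => z ∈ Bset := by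
  rw [Bset_eq]
  exact re_union re_A0 re_A1

theorem re_W : REPred fun z : ℕ => z ∈ Wset := re_union re_B re_C

/-! ### The first half is late -/

/-- The exceptional events for `i`. -/
def Exc (i : ℕ) : Set ℕ :=
  {z | ∃ t e, ac t = some e ∧ kd e = 0 ∧ el e = z ∧ i ≤ rq e ∧ ¬ Uin i t z}

/-- All witnesses older than `z` are refuted at stage `s`. -/
def clear (i z s : ℕ) : Prop :=
  ∀ e ∈ St s, kd e = 2 → rq e % 2 = 0 → tm e < z → inB (St s) (el e) ∨ Uin i s (el e)

instance (i z s : ℕ) : Decidable (clear i z s) := by unfold clear; infer_instance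

/-- `z` has been put into `A0` as an exceptional number before stage `s`. -/
def excs (i z s : ℕ) : Prop :=
  ∃ e ∈ St s, kd e = 0 ∧ el e = z ∧ i ≤ rq e ∧ ¬ Uin i (tm e) z

instance (i z s : ℕ) : Decidable (excs i z s) := by unfold excs; infer_instance

theorem prim_excs (i : ℕ) : PrimrecPred fun p : ℕ × ℕ => excs i p.1 p.2 :=
  prim_memSt (R := fun e z => kd e = 0 ∧ el e = z ∧ i ≤ rq e ∧ ¬ Uin i (tm e) z)
    ((prim_eqc (prim_kd.comp Primrec.fst) (Primrec.const 0)).and
      ((prim_eqc (prim_el.comp Primrec.fst) Primrec.snd).and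
        ((prim_lec (Primrec.const i) (prim_rq.comp Primrec.fst)).and
          (prim_Uc (Primrec.const i) (prim_tm.comp Primrec.fst) Primrec.snd).not)))

theorem prim_clear (i : ℕ) : PrimrecPred fun p : ℕ × ℕ => clear i p.1 p.2 := by
  have h : PrimrecRel fun (e : Ev) (p : ℕ × ℕ) => kd e = 2 → rq e % 2 = 0 → tm e < p.1 →
      inB (St p.2) (el e) ∨ Uin i p.2 (el e) :=
    prim_imp (prim_eqc (prim_kd.comp Primrec.fst) (Primrec.const 2))
      (prim_imp (prim_eqc (Primrec.nat_mod.comp (prim_rq.comp Primrec.fst) (Primrec.const 2))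
        (Primrec.const 0))
      (prim_imp (prim_ltc (prim_tm.comp Primrec.fst) (Primrec.fst.comp Primrec.snd))
      ((prim_inB.comp (prim_St.comp (Primrec.snd.comp Primrec.snd))
        (prim_el.comp Primrec.fst)).or
      (prim_Uc (Primrec.const i) (Primrec.snd.comp Primrec.snd) (prim_el.comp Primrec.fst)))))
  exact h.forall_mem_list.comp (prim_St.comp Primrec.snd) Primrec.id

theorem excs_iff {i z : ℕ} : z ∈ Exc i ↔ ∃ s, excs i z s := by
  constructor
  · rintro ⟨t, e, h, hk, hz, hi, hU⟩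
    refine ⟨t + 1, e, mem_St.2 ⟨t, Nat.lt_succ_self t, h⟩, hk, hz, hi, ?_⟩
    rw [ac_tm h]
    exact hU
  · rintro ⟨s, e, he, hk, hz, hi, hU⟩
    obtain ⟨t, _, h⟩ := mem_St.1 he
    rw [ac_tm h] at hU
    exact ⟨t, e, h, hk, hz, hi, hU⟩

theorem re_Exc (i : ℕ) : REPred fun z => z ∈ Exc i :=
  (re_exists (r := fun z s => excs i z s) (prim_excs i).computablePred).of_eq
    fun z => excs_iff.symm

theorem clear_exists {i : ℕ} (hg : Good i) (z : ℕ) : ∃ s, z ≤ s ∧ clear i z s := by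
  have h1 : ∀ e : Ev, ∃ s, ∀ t, ac t = some e → kd e = 2 → rq e % 2 = 0 →
      ∀ s', s ≤ s' → inB (St s') (el e) ∨ Uin i s' (el e) := by
    intro e
    by_cases h : ∃ t, ac t = some e ∧ kd e = 2 ∧ rq e % 2 = 0
    · obtain ⟨t, h, hk, hr⟩ := h
      by_cases hB : el e ∈ Bset
      · obtain ⟨s, hs⟩ := hB
        exact ⟨s, fun _ _ _ _ s' h' => Or.inl (inB_mono h' hs)⟩
      · obtain ⟨s, hs⟩ := hg _ ⟨t, e, h, hk, hr, rfl⟩ hB
        exact ⟨s, fun _ _ _ _ s' h' => Or.inr (Uin_mono h' hs)⟩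
    · exact ⟨0, fun t h1 h2 h3 => absurd ⟨t, h1, h2, h3⟩ h⟩
  choose f hf using h1
  refine ⟨max z ((St z).toFinset.sup f), le_max_left _ _, fun e he hk hr ht => ?_⟩
  obtain ⟨t, _, h⟩ := mem_St.1 he
  rw [ac_tm h] at ht
  have h2 : e ∈ St z := mem_St.2 ⟨t, ht, h⟩
  refine hf e t h hk hr _ (le_trans ?_ (le_max_right _ _))
  exact Finset.le_sup (f := f) (List.mem_toFinset.2 h2)

theorem not_exc {i z s : ℕ} (hs : z ≤ s) (hc : clear i z s) (hn : ¬ excs i z s) : z ∉ Exc i := by
  rintro ⟨t, e, h, hk, hz, hi, hU⟩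
  by_cases ht : t < s
  · exact hn ⟨e, mem_St.2 ⟨t, ht, h⟩, hk, hz, hi, by rw [ac_tm h]; exact hU⟩
  · push Not at ht
    obtain ⟨⟨h1, h2, h3⟩, h4⟩ := ac_some h
    rcases h4 with h4 | h4 | h4 | h4
    · have h5 := h4.2.2.2.2.1 i (by omega)
      rw [← h1, hz] at h5
      rcases h5 with h5 | ⟨e', he', hk', hr', ht', hB', hU'⟩
      · exact hU h5
      · obtain ⟨t', _, h'⟩ := mem_St.1 he'
        have h6 : tm e' = t' := ac_tm h'
        have h7 : e' ∈ St s := mem_St.2 ⟨t', by omega, h'⟩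
        rcases hc e' h7 hk' hr' ht' with h8 | h8
        · exact hB' (inB_mono ht h8)
        · exact hU' (Uin_mono ht h8)
    · omega
    · omega
    · omega

theorem co_Exc {i : ℕ} (hg : Good i) : REPred fun z => z ∈ (Exc i)ᶜ := by
  have h : REPred fun z : ℕ => ∃ s, z ≤ s ∧ clear i z s ∧ ¬ excs i z s := by
    refine re_exists ?_
    exact ((prim_lec Primrec.fst Primrec.snd).and ((prim_clear i).and
      (prim_excs i).not)).computablePred
  refine h.of_eq fun z => ?_
  constructor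
  · rintro ⟨s, h1, h2, h3⟩
    exact not_exc h1 h2 h3
  · intro hz
    obtain ⟨s, h1, h2⟩ := clear_exists hg z
    exact ⟨s, h1, h2, fun h3 => hz (excs_iff.2 ⟨s, h3⟩)⟩

/-- The finitely many numbers put into `A0` by the requirements before `i`. -/
def Early (i : ℕ) : Set ℕ := {z | ∃ t e, ac t = some e ∧ kd e = 0 ∧ el e = z ∧ rq e < i}

theorem Early_fin (i : ℕ) : (Early i).Finite := by
  obtain ⟨s, hs⟩ := quiet_le i
  refine (fin_els s).subset ?_
  rintro z ⟨t, e, h, _, hz, hr⟩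
  exact ⟨e, old_of_quiet (hs _ hr.le) h, hz⟩

end Pool.Agent.Helper90.Fried
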